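import Pool.Agent.Lib.MP_402e48_co.Wheel

/-!
Closed discs none of which contains the centre of another one in its interior: at most `18 n`
ordered pairs intersect.
-/

namespace Pool.Agent.SIG

open Finset Filter Topology Complex ComplexConjugate

/-- planar determinant -/
def dt (s t : ℂ) : ℝ := s.re * t.im - s.im * t.re

/-- quadratic form with values `0, 1, 3` (up to scale) on the three spoke directions -/
noncomputable def Qf (u v : ℂ) : ℝ := dt u v ^ 2 - 2 * dt v (om * u) * dt u v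

/-- a chosen sixth root -/
noncomputable def rep (c : ℂ) : ℂ := Classical.epsilon fun u => u ^ 6 = c

def mm : Fin 6 → ℤ := ![1, 0, -1, -1, 0, 1]

def nn : Fin 6 → ℤ := ![0, 1, 1, 0, -1, -1]

def qq (j : Fin 6) : ℤ := nn j ^ 2 - 2 * mm j * nn j

def oz (i j k : Fin 6) : ℤ := (mm j - mm i) * (nn k - nn i) - (nn j - nn i) * (mm k - mm i)

def Gz (i j k l : Fin 6) : ℤ :=
  (mm j - mm i) * ((nn k - nn i) * (qq l - qq i) - (qq k - qq i) * (nn l - nn i))
    - (nn j - nn i) * ((mm k - mm i) * (qq l - qq i) - (qq k - qq i) * (mm l - mm i))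
    + (qq j - qq i) * ((mm k - mm i) * (nn l - nn i) - (nn k - nn i) * (mm l - mm i))

def ti : Fin 6 → Fin 6 := ![0, 3, 1, 4, 1, 4]

def tk : Fin 6 → Fin 6 := ![2, 5, 2, 5, 3, 0]

def tl : Fin 6 → Fin 6 := ![1, 4, 3, 0, 0, 3]

theorem table : ∀ s : Fin 6, ti s ≠ ti s + 3 ∧ tk s ≠ ti s ∧ tk s ≠ ti s + 3 ∧
    oz (ti s) (ti s + 3) (tk s) < 0 ∧ 0 < Gz (ti s) (ti s + 3) (tk s) (tl s) ∧
    ∀ w, w ≠ ti s → w ≠ ti s + 3 → w ≠ tk s → w ≠ tl s → Gz (ti s) (ti s + 3) (tk s) w < 0 := by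
  decide

theorem table2 : ∀ s s' : Fin 6, ti s = ti s' → tk s = tk s' → s = s' := by decide

theorem table3 : ∀ i j : Fin 6, mm i = mm j → nn i = nn j → i = j := by decide

theorem om_lat (j : Fin 6) (u : ℂ) :
    om ^ (j : ℕ) * u = ((mm j : ℝ) : ℂ) * u + ((nn j : ℝ) : ℂ) * (om * u) := by
  fin_cases j <;> simp [mm, nn, om_sq, om3, om4, om5] <;> ring

theorem om_add3 (j : Fin 6) : om ^ ((j + 3 : Fin 6) : ℕ) = -om ^ (j : ℕ) := by
  rw [Fin.val_add, ← pow_eq_pow_mod _ om6, pow_add]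
  exact (congrArg (om ^ (j : ℕ) * ·) om3).trans (by ring)

theorem dt_pos {u : ℂ} (hu : u ≠ 0) : 0 < dt u (om * u) := by
  have h := normSq_pos.2 hu
  rw [normSq_apply] at h
  simp only [dt, mul_re, mul_im, om_re, om_im]
  nlinarith [mul_pos s3pos h]

theorem ev_lex (A B : ℝ) (h : 0 < A ∨ (A = 0 ∧ 0 < B)) : ∀ᶠ ε in 𝓝[>] (0 : ℝ), 0 < A + ε * B := by
  rcases h with h | h
  · have hc : Continuous fun ε : ℝ => A + ε * B := by fun_prop
    have h' : 0 < A + 0 * B := by linarith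
    exact ((hc.tendsto 0).eventually (lt_mem_nhds h')).filter_mono nhdsWithin_le_nhds
  · filter_upwards [self_mem_nhdsWithin] with ε hε
    have := mul_pos (show 0 < ε from hε) h.2
    linarith [h.1]

variable {ι : Type*} [Fintype ι] [DecidableEq ι]

/-- lifting with perturbed heights -/
def RR (p : ι → ℂ) (r h : ι → ℝ) (ε : ℝ) : ι → V :=
  fun a => ![(p a).re, (p a).im, (p a).re ^ 2 + (p a).im ^ 2 - r a ^ 2 + ε * h a]

omit [Fintype ι] [DecidableEq ι] in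
theorem D_RR (p : ι → ℂ) (r h : ι → ℝ) (ε : ℝ) (q : ℂ) (a b c w : ι)
    (ha : r a ^ 2 = normSq (p a - q)) (hb : r b ^ 2 = normSq (p b - q))
    (hc : r c ^ 2 = normSq (p c - q)) :
    D (RR p r h ε) a b c w = dt (p b - p a) (p c - p a) * (normSq (p w - q) - r w ^ 2)
      + ε * D (fun a => ![(p a).re, (p a).im, h a]) a b c w := by
  rw [nsq] at ha hb hc ⊢
  simp only [D, det3, RR, dt, Pi.sub_apply, Matrix.cons_val_zero, Matrix.cons_val_one,
    Matrix.cons_val_two, Matrix.head_cons, Matrix.tail_cons, sub_re, sub_im]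
  generalize r w ^ 2 = rw2
  rw [ha, hb, hc]
  ring

section rim

variable (p : ι → ℂ) (r h : ι → ℝ) (z : ι) (u : ℂ) (ρ : Fin 6 → ι)
  (hρ : ∀ j, p (ρ j) = p z + om ^ (j : ℕ) * u)

omit [Fintype ι] [DecidableEq ι] in
include hρ in
theorem rim_xy (j : Fin 6) :
    (p (ρ j)).re = (p z).re + mm j * u.re + nn j * (om * u).re ∧
    (p (ρ j)).im = (p z).im + mm j * u.im + nn j * (om * u).im := by
  rw [hρ, om_lat]
  generalize om * u = u'
  simp only [add_re, add_im, re_ofReal_mul, im_ofReal_mul]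
  constructor <;> ring

omit [Fintype ι] [DecidableEq ι] in
include hρ in
theorem rim_inj (hu : u ≠ 0) : Function.Injective ρ := by
  intro i j hij
  have hd := dt_pos hu
  obtain ⟨a1, a2⟩ := rim_xy p z u ρ hρ i
  obtain ⟨b1, b2⟩ := rim_xy p z u ρ hρ j
  rw [hij, b1] at a1
  rw [hij, b2] at a2
  have e1 : (mm i : ℝ) * dt u (om * u) = mm j * dt u (om * u) := by
    simp only [dt]; linear_combination (om * u).re * a2 - (om * u).im * a1
  have e2 : (nn i : ℝ) * dt u (om * u) = nn j * dt u (om * u) := by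
    simp only [dt]; linear_combination u.im * a1 - u.re * a2
  exact table3 i j (by exact_mod_cast mul_right_cancel₀ hd.ne' e1)
    (by exact_mod_cast mul_right_cancel₀ hd.ne' e2)

omit [Fintype ι] [DecidableEq ι] in
include hρ in
theorem rim_or (i j k : Fin 6) :
    dt (p (ρ j) - p (ρ i)) (p (ρ k) - p (ρ i)) = dt u (om * u) * oz i j k := by
  simp only [dt, oz, sub_re, sub_im, (rim_xy p z u ρ hρ _).1, (rim_xy p z u ρ hρ _).2]
  push_cast
  ring

omit [Fintype ι] [DecidableEq ι] in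
include hρ in
theorem rim_G (hh : ∀ j, h (ρ j) = Qf u (p (ρ j))) (i j k l : Fin 6) :
    D (fun a => ![(p a).re, (p a).im, h a]) (ρ i) (ρ j) (ρ k) (ρ l) =
      dt u (om * u) ^ 3 * Gz i j k l := by
  have e : ∀ j, h (ρ j) = (dt u (p z) + nn j * dt u (om * u)) ^ 2
      - 2 * (dt (p z) (om * u) + mm j * dt u (om * u)) * (dt u (p z) + nn j * dt u (om * u)) := by
    intro j
    rw [hh, Qf]
    simp only [dt, (rim_xy p z u ρ hρ _).1, (rim_xy p z u ρ hρ _).2]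
    ring
  have e3 : dt u (om * u) ^ 3 =
      (u.re * (om * u).im - u.im * (om * u).re) * dt u (om * u) ^ 2 := by
    simp only [dt]; ring
  rw [e3]
  simp only [D, det3, Gz, qq, e, Pi.sub_apply, Matrix.cons_val_zero, Matrix.cons_val_one,
    Matrix.cons_val_two, Matrix.head_cons, Matrix.tail_cons,
    (rim_xy p z u ρ hρ _).1, (rim_xy p z u ρ hρ _).2]
  push_cast
  ring

include hρ in
theorem rim_fac (hr : ∀ x, 0 < r x) (hsep : ∀ x z, z ≠ x → r x ^ 2 ≤ normSq (p z - p x))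
    (hW : Wheel p r z u) (hρr : ∀ j, r (ρ j) ^ 2 = normSq u)
    (hh : ∀ j, h (ρ j) = Qf u (p (ρ j))) (s : Fin 6) :
    ∀ᶠ ε in 𝓝[>] (0 : ℝ), Fac (RR p r h ε) 2 (ρ (ti s)) (ρ (ti s + 3)) (ρ (tk s)) := by
  have inj := rim_inj p z u ρ hρ hW.1
  have pinj := p_inj p r hr hsep
  have hd := dt_pos hW.1
  obtain ⟨t1, t2, t3, t4, t5, t6⟩ := table s
  have on : ∀ j, r (ρ j) ^ 2 = normSq (p (ρ j) - p z) := fun j => by
    rw [hρr, hρ, add_sub_cancel_left, normSq_ompow]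
  have hz : ∀ j, z ≠ ρ j := fun j hj => by
    have := on j
    rw [← hj, sub_self, map_zero] at this
    nlinarith [hr z]
  have hD := fun ε w => D_RR p r h ε (p z) (ρ (ti s)) (ρ (ti s + 3)) (ρ (tk s)) w (on _) (on _) (on _)
  rw [rim_or p z u ρ hρ] at hD
  have o4 : dt u (om * u) * oz (ti s) (ti s + 3) (tk s) < 0 :=
    mul_neg_of_pos_of_neg hd (by exact_mod_cast t4)
  have e1 : ∀ᶠ ε in 𝓝[>] (0 : ℝ),
      0 < D (RR p r h ε) (ρ (ti s)) (ρ (ti s + 3)) (ρ (tk s)) z := by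
    simp only [hD]
    refine ev_lex _ _ (Or.inl (mul_pos_of_neg_of_neg o4 ?_))
    rw [sub_self, map_zero]
    nlinarith [hr z]
  have e2 : ∀ᶠ ε in 𝓝[>] (0 : ℝ),
      0 < D (RR p r h ε) (ρ (ti s)) (ρ (ti s + 3)) (ρ (tk s)) (ρ (tl s)) := by
    simp only [hD]
    refine ev_lex _ _ (Or.inr ⟨by rw [on, sub_self, mul_zero], ?_⟩)
    rw [rim_G p h z u ρ hρ hh]
    exact mul_pos (pow_pos hd 3) (by exact_mod_cast t5)
  have e3 : ∀ w, ∀ᶠ ε in 𝓝[>] (0 : ℝ), w ≠ ρ (ti s) → w ≠ ρ (ti s + 3) → w ≠ ρ (tk s) →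
      w ∉ ({z, ρ (tl s)} : Finset ι) →
      D (RR p r h ε) (ρ (ti s)) (ρ (ti s + 3)) (ρ (tk s)) w < 0 := by
    intro w
    by_cases hw : w ≠ ρ (ti s) ∧ w ≠ ρ (ti s + 3) ∧ w ≠ ρ (tk s) ∧ w ∉ ({z, ρ (tl s)} : Finset ι)
    swap
    · exact Eventually.of_forall fun ε a b c d => absurd ⟨a, b, c, d⟩ hw
    obtain ⟨w1, w2, w3, w4⟩ := hw
    simp only [mem_insert, mem_singleton, not_or] at w4
    have := ev_lex (-(dt u (om * u) * oz (ti s) (ti s + 3) (tk s) * (normSq (p w - p z) - r w ^ 2)))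
      (-D (fun a => ![(p a).re, (p a).im, h a]) (ρ (ti s)) (ρ (ti s + 3)) (ρ (tk s)) w) (by
        rcases lt_or_ge (r w ^ 2) (normSq (p w - p z)) with c | c
        · exact Or.inl (neg_pos.2 (mul_neg_of_neg_of_pos o4 (by linarith)))
        · obtain ⟨j, hj, e⟩ := rim_all p r hr hsep hW w w4.1 c
          obtain rfl : w = ρ ⟨j, hj⟩ := pinj (by rw [e, hρ])
          refine Or.inr ⟨by rw [on, sub_self, mul_zero, neg_zero], ?_⟩
          rw [rim_G p h z u ρ hρ hh]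
          refine neg_pos.2 (mul_neg_of_pos_of_neg (pow_pos hd 3) ?_)
          exact_mod_cast t6 _ (fun h => w1 (congrArg ρ h)) (fun h => w2 (congrArg ρ h))
            (fun h => w3 (congrArg ρ h)) (fun h => w4.2 (congrArg ρ h)))
    refine this.mono fun ε hε _ _ _ _ => ?_
    rw [hD]
    linarith
  filter_upwards [e1, e2, eventually_all.2 e3] with ε h1 h2 h3
  refine ⟨inj.ne t1, inj.ne t2, inj.ne t3, {z, ρ (tl s)}, card_pair (hz _), ?_, h3⟩
  intro w hw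
  simp only [mem_insert, mem_singleton] at hw
  rcases hw with rfl | rfl
  exacts [h1, h2]

end rim

omit [Fintype ι] [DecidableEq ι] in
theorem heights (p : ι → ℂ) (r : ι → ℝ) (hr : ∀ x, 0 < r x)
    (hsep : ∀ x z, z ≠ x → r x ^ 2 ≤ normSq (p z - p x)) :
    ∃ h : ι → ℝ, ∀ z, ∃ (u : ℂ) (ρ : Fin 6 → ι), (∃ v, Wheel p r z v) → Wheel p r z u ∧
      (∀ j, p (ρ j) = p z + om ^ (j : ℕ) * u) ∧ (∀ j, r (ρ j) ^ 2 = normSq u) ∧
      ∀ j, h (ρ j) = Qf u (p (ρ j)) := by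
  have hc : ∀ a, ∃ c, (∃ z, Wheel p r z (p a - p z)) → Wheel p r c (p a - p c) := by
    intro a
    by_cases h : ∃ z, Wheel p r z (p a - p z)
    · obtain ⟨z, hz⟩ := h
      exact ⟨z, fun _ => hz⟩
    · exact ⟨a, fun h' => absurd h' h⟩
  choose c hc using hc
  refine ⟨fun a => Qf (rep ((p a - p (c a)) ^ 6)) (p a), fun z => ?_⟩
  by_cases hz : ∃ v, Wheel p r z v
  swap
  · exact ⟨0, fun _ => z, fun h => absurd h hz⟩
  obtain ⟨v, hv⟩ := hz
  have h6 : rep (v ^ 6) ^ 6 = v ^ 6 := Classical.epsilon_spec (p := fun u => u ^ 6 = v ^ 6) ⟨v, rfl⟩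
  obtain ⟨i, hi⟩ := root6 _ _ h6
  have hW : Wheel p r z (rep (v ^ 6)) := by rw [hi]; exact hv.rot i
  choose ρ h1 h2 using hW.2
  refine ⟨rep (v ^ 6), fun j => ρ j, fun _ => ⟨hW, fun j => h1 j, fun j => h2 j, fun j => ?_⟩⟩
  have e : p (ρ j) - p z = om ^ (j : ℕ) * rep (v ^ 6) := by rw [h1]; ring
  have hW' : Wheel p r z (p (ρ j) - p z) := by rw [e]; exact hW.rot j
  have := consistent p r hr hsep (hc _ ⟨z, hW'⟩) hW'
  rw [e, ompow6, h6] at this
  simp only [this]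

theorem discs_closed (p : ι → ℂ) (r : ι → ℝ) (hr : ∀ x, 0 < r x)
    (hsep : ∀ x z, z ≠ x → r x ^ 2 ≤ normSq (p z - p x)) (G : Finset (ι × ι))
    (hG : ∀ e ∈ G, e.1 ≠ e.2 ∧ normSq (p e.2 - p e.1) ≤ (r e.1 + r e.2) ^ 2) :
    #G ≤ 18 * Fintype.card ι := by
  classical
  rcases le_or_gt 7 (Fintype.card ι) with hn | hn
  swap
  · have := card_le_univ G
    rw [Fintype.card_prod] at this
    nlinarith
  have pinj := p_inj p r hr hsep
  have hsep' : ∀ x z, z ≠ x → r x ^ 2 ≤ ((p z).re - (p x).re) ^ 2 + ((p z).im - (p x).im) ^ 2 :=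
    fun x z h => by rw [← nsq]; exact hsep x z h
  obtain ⟨h, hh⟩ := heights p r hr hsep
  choose u ρ hh using hh
  let W : Finset ι := {z | ∃ v, Wheel p r z v}
  have hW : ∀ z ∈ W, ∃ v, Wheel p r z v := fun z hz => (mem_filter.1 hz).2
  let B : Finset (ι × ι) :=
    {e | ∃ z, Wheel p r z (p e.1 - p z) ∧ p e.2 - p z = -(p e.1 - p z)}
  let τ : ι × Fin 6 → ι × ι × ι := fun s => (ρ s.1 (ti s.2), ρ s.1 (ti s.2 + 3), ρ s.1 (tk s.2))
  let T := (W ×ˢ (univ : Finset (Fin 6))).image τ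
  have opp : ∀ z ∈ W, ∀ j, p (ρ z (j + 3)) - p z = -(p (ρ z j) - p z) := by
    intro z hz j
    obtain ⟨-, h1, -⟩ := hh z (hW z hz)
    rw [h1, h1, om_add3]; ring
  have cT : #T = #(W ×ˢ (univ : Finset (Fin 6))) := by
    apply card_image_of_injOn
    rintro ⟨z, s⟩ hs ⟨z', s'⟩ hs' e
    have hz : z ∈ W := (mem_product.1 hs).1
    have hz' : z' ∈ W := (mem_product.1 hs').1
    simp only [τ, Prod.mk.injEq] at e
    have o1 := opp z hz (ti s)
    have o2 := opp z' hz' (ti s')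
    rw [e.1, e.2.1] at o1
    obtain rfl : z = z' := pinj (by linear_combination (1 / 2) * o2 - (1 / 2) * o1)
    obtain ⟨h0, h1, -⟩ := hh z (hW z hz)
    have inj := rim_inj p z (u z) (ρ z) h1 h0.1
    rw [table2 s s' (inj e.1) (inj e.2.2)]
  have cB : #B ≤ #(W ×ˢ (univ : Finset (Fin 6))) := by
    refine le_trans (card_le_card ?_)
      (card_image_le (f := fun s : ι × Fin 6 => (ρ s.1 s.2, ρ s.1 (s.2 + 3))))
    rintro ⟨x, y⟩ he
    obtain ⟨z, w1, w2⟩ := (mem_filter.1 he).2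
    simp only at w1 w2
    have hz : z ∈ W := mem_filter.2 ⟨mem_univ _, _, w1⟩
    obtain ⟨h0, h1, -⟩ := hh z (hW z hz)
    have hxz : x ≠ z := by rintro rfl; exact w1.1 (sub_self _)
    have hrx : normSq (p x - p z) ≤ r x ^ 2 := by
      obtain ⟨b, b1, b2⟩ := w1.2 0
      rw [← b2, pinj (show p b = p x by rw [b1]; ring)]
    obtain ⟨j, hj, e⟩ := rim_all p r hr hsep h0 x hxz hrx
    obtain rfl : x = ρ z ⟨j, hj⟩ := pinj (by rw [e, h1])
    refine mem_image.2 ⟨(z, ⟨j, hj⟩), mem_product.2 ⟨hz, mem_univ _⟩, Prod.ext rfl (pinj ?_)⟩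
    have := opp z hz ⟨j, hj⟩
    simp only
    linear_combination this - w2
  have hR : ∀ a i, Continuous fun ε => RR p r h ε a i := by
    intro a i
    fin_cases i <;> simp [RR] <;> fun_prop
  have h0 : RR p r h 0 = LL p r := by
    funext a
    simp [RR, LL, L]
  have e1 := ev_cvx (RR p r h) hR (by rw [h0]; exact cvxL _ _ r hr hsep')
  have e2 : ∀ᶠ ε in 𝓝 (0 : ℝ), ∀ e ∈ G \ B, Good (RR p r h ε) 2 e.1 e.2 := by
    refine (eventually_all_finset _).2 fun e he => ev_good (RR p r h) hR 2 _ _ ?_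
    rw [h0]
    obtain ⟨he1, he2⟩ := mem_sdiff.1 he
    obtain ⟨a, b⟩ := hG e he1
    rcases b.lt_or_eq with b | b
    · exact good_strict _ _ r hr hsep' _ _ a (by rw [← nsq]; exact b)
    · exact (tangent p r hr hsep _ _ a b).resolve_right fun h =>
        he2 (mem_filter.2 ⟨mem_univ _, h⟩)
  have e3 : ∀ᶠ ε in 𝓝[>] (0 : ℝ), ∀ t ∈ T, Fac (RR p r h ε) 2 t.1 t.2.1 t.2.2 := by
    refine (eventually_all_finset _).2 fun t ht => ?_
    obtain ⟨⟨z, s⟩, hs, rfl⟩ := mem_image.1 ht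
    obtain ⟨h0, h1, h2, h3⟩ := hh z (hW z (mem_product.1 hs).1)
    exact rim_fac p r h z (u z) (ρ z) h1 hr hsep h0 h2 h3 s
  obtain ⟨ε, ⟨f1, f2⟩, f3⟩ := (((e1.and e2).filter_mono nhdsWithin_le_nhds).and e3).exists
  have key := main_count2 (RR p r h ε) 2 f1 hn (G \ B) f2 T f3 (by
    intro t ht hc
    obtain ⟨⟨z, s⟩, hs, rfl⟩ := mem_image.1 ht
    have hz : z ∈ W := (mem_product.1 hs).1
    obtain ⟨h0, h1, -⟩ := hh z (hW z hz)
    refine (mem_sdiff.1 hc).2 (mem_filter.2 ⟨mem_univ _, z, ?_, opp z hz _⟩)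
    simp only [τ]
    rw [h1, add_sub_cancel_left]
    exact h0.rot _)
  have := card_le_card_sdiff_add_card (s := G) (t := B)
  omega

end Pool.Agent.SIG
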