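import Mathlib

/-!
Combinatorial core for the count of shallow pairs of a point set in convex position in `ℝ³`.
-/

namespace Pool.Agent.SIG

open Finset

section A
variable {ι : Type*} [DecidableEq ι]

/-- Discrete continuity: in a planar vector configuration with at most `k` vectors outside an
open half-plane, some vector has exactly `k` vectors to its left. -/
theorem exists_left_eq (U : Finset ι) (d : ι → ι → ℝ) (α : ι → ℝ) (k : ℕ)
    (anti : ∀ z w, d z w = - d w z)
    (ne : ∀ z ∈ U, ∀ w ∈ U, z ≠ w → d z w ≠ 0)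
    (iden : ∀ z w v, α w * d z v = α z * d w v + α v * d z w)
    (hk : #{z ∈ U | ¬ 0 < α z} ≤ k) (hU : 2 * k + 1 ≤ #U) :
    ∃ z ∈ U, #{w ∈ U | 0 < d z w} = k := by
  classical
  set Pos := U.filter (fun z => 0 < α z) with hPos
  set Neg := U.filter (fun z => ¬ 0 < α z) with hNeg
  have hcard : #Pos + #Neg = #U := card_filter_add_card_filter_not _
  have hself : ∀ z, d z z = 0 := fun z => by have := anti z z; linarith
  let g : ι → ℕ := fun z => #{w ∈ Pos | 0 < d z w}
  let h : ι → ℕ := fun z => #{w ∈ Neg | 0 < d z w}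
  have hL : ∀ z, #{w ∈ U | 0 < d z w} = g z + h z := by
    intro z
    have := card_filter_add_card_filter_not (s := U.filter (fun w => 0 < d z w))
      (fun w => 0 < α w)
    rw [← this]
    simp only [g, h, hPos, hNeg, filter_filter]
    congr 2 <;> ext w <;> simp only [mem_filter] <;> tauto
  have memPos : ∀ z, z ∈ Pos ↔ z ∈ U ∧ 0 < α z := fun z => by simp [hPos]
  have memNeg : ∀ z, z ∈ Neg ↔ z ∈ U ∧ α z ≤ 0 := fun z => by simp [hNeg]
  have trans : ∀ z ∈ Pos, ∀ w ∈ Pos, ∀ v ∈ Pos, 0 < d z w → 0 < d w v → 0 < d z v := by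
    intro z hz w hw v hv h1 h2
    have a1 := ((memPos z).1 hz).2
    have a2 := ((memPos w).1 hw).2
    have a3 := ((memPos v).1 hv).2
    have := iden z w v
    have h3 : 0 < α w * d z v := by rw [this]; positivity
    exact (mul_pos_iff_of_pos_left a2).1 h3
  have gl : ∀ z ∈ Pos, ∀ w ∈ Pos, 0 < d z w → g w < g z := by
    intro z hz w hw h1
    apply card_lt_card
    rw [ssubset_iff_of_subset]
    · exact ⟨w, mem_filter.2 ⟨hw, h1⟩, by simp [hself]⟩
    · intro v hv
      rw [mem_filter] at hv ⊢
      exact ⟨hv.1, trans z hz w hw v hv.1 h1 hv.2⟩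
  have hm : ∀ z ∈ Pos, ∀ w ∈ Pos, 0 < d z w → h z ≤ h w := by
    intro z hz w hw h1
    apply card_le_card
    intro v hv
    rw [mem_filter] at hv ⊢
    refine ⟨hv.1, ?_⟩
    have a1 := ((memPos z).1 hz).2
    have a2 := ((memPos w).1 hw).2
    have a3 := ((memNeg v).1 hv.1).2
    have := iden z w v
    have h3 : 0 < α z * d w v := by nlinarith [mul_pos a2 hv.2, mul_nonneg (neg_nonneg.2 a3) h1.le]
    exact (mul_pos_iff_of_pos_left a1).1 h3
  have hle : ∀ z, h z ≤ k := fun z => (card_filter_le _ _).trans hk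
  have hPne : Pos.Nonempty := by rw [← card_pos]; omega
  obtain ⟨z0, hz0, hmin⟩ := exists_min_image Pos g hPne
  have g0 : g z0 = 0 := by
    by_contra hne
    obtain ⟨w, hw⟩ := card_pos.1 (Nat.pos_of_ne_zero hne)
    rw [mem_filter] at hw
    have := gl z0 hz0 w hw.1 hw.2
    have := hmin w hw.1
    omega
  have hLo : (Pos.filter (fun z => g z + h z ≤ k)).Nonempty :=
    ⟨z0, mem_filter.2 ⟨hz0, by have := hle z0; omega⟩⟩
  obtain ⟨z, hz, hmax⟩ := exists_max_image _ g hLo
  rw [mem_filter] at hz
  refine ⟨z, ((memPos z).1 hz.1).1, ?_⟩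
  rw [hL]
  by_contra hne
  have hlt : g z + h z < k := by omega
  have hpre : (Pos.filter (fun w => 0 < d w z)).Nonempty := by
    by_contra hemp
    rw [not_nonempty_iff_eq_empty, filter_eq_empty_iff] at hemp
    have : Pos ⊆ insert z (Pos.filter (fun w => 0 < d z w)) := by
      intro w hw
      rw [mem_insert, mem_filter]
      by_cases hwz : w = z
      · exact Or.inl hwz
      · refine Or.inr ⟨hw, ?_⟩
        have h1 := hemp hw
        have h2 := ne w ((memPos w).1 hw).1 z ((memPos z).1 hz.1).1 hwz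
        have h3 := anti z w
        have : d w z < 0 := lt_of_le_of_ne (not_lt.1 h1) h2
        linarith
    have h1 := (card_le_card this).trans (card_insert_le _ _)
    have : g z = #(Pos.filter (fun w => 0 < d z w)) := rfl
    omega
  obtain ⟨w, hw, hwmin⟩ := exists_min_image _ g hpre
  rw [mem_filter] at hw
  have h1 : g w ≤ g z + 1 := by
    have : Pos.filter (fun v => 0 < d w v) ⊆ insert z (Pos.filter (fun v => 0 < d z v)) := by
      intro v hv
      rw [mem_filter] at hv
      rw [mem_insert, mem_filter]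
      by_cases hvz : v = z
      · exact Or.inl hvz
      · refine Or.inr ⟨hv.1, ?_⟩
        by_contra hn
        have h2 := ne v ((memPos v).1 hv.1).1 z ((memPos z).1 hz.1).1 hvz
        have h3 := anti z v
        have h4 : 0 < d v z := by
          rcases lt_or_gt_of_ne h2 with h | h
          · exact absurd (by linarith) hn
          · exact h
        have h5 := hwmin v (mem_filter.2 ⟨hv.1, h4⟩)
        have h6 := gl w hw.1 v hv.1 hv.2
        omega
    exact (card_le_card this).trans (card_insert_le _ _)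
  have h2 := hm w hw.1 z hz.1 hw.2
  have h3 := gl w hw.1 z hz.1 hw.2
  have h4 := hmax w (mem_filter.2 ⟨hw.1, by omega⟩)
  omega

/-- The Lovász lemma: at most `k + 1` directed `k`-edges cross a line in a given direction. -/
theorem lovasz (U : Finset ι) (E : Finset (ι × ι)) (f : ι × ι → ι → ℝ) (η μ : ι → ℝ) (k : ℕ)
    (hμ : ∀ w ∈ U, 0 < μ w)
    (hE : ∀ e ∈ E, e.1 ∈ U ∧ e.2 ∈ U ∧ 0 < η e.1 ∧ η e.2 < 0 ∧ f e e.1 = 0 ∧ f e e.2 = 0 ∧
      #{w ∈ U | 0 < f e w} = k ∧ ∀ w ∈ U, f e w = 0 → w = e.1 ∨ w = e.2)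
    (hid : ∀ e ∈ E, ∀ e' ∈ E, ∃ κ κ' c1 c0 : ℝ, 0 < κ ∧ 0 < κ' ∧
      ∀ w, κ * f e' w - κ' * f e w = c1 * η w + c0 * μ w) :
    #E ≤ k + 1 := by
  classical
  let A : ι × ι → Finset ι := fun e => U.filter (fun w => 0 < f e w ∧ 0 < η w)
  let B : ι × ι → Finset ι := fun e => U.filter (fun w => 0 < f e w ∧ ¬ 0 < η w)
  have hAB : ∀ e ∈ E, #(A e) + #(B e) = k := by
    intro e he
    have := card_filter_add_card_filter_not (s := U.filter (fun w => 0 < f e w))
      (fun w => 0 < η w)
    rw [← (hE e he).2.2.2.2.2.2.1, ← this]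
    simp only [A, B, filter_filter]
  have key : ∀ e ∈ E, ∀ e' ∈ E, ∀ κ κ' c1 c0 : ℝ, 0 < κ → 0 < κ' → 0 ≤ c1 →
      (∀ w, κ * f e' w - κ' * f e w = c1 * η w + c0 * μ w) → e = e' ∨ #(A e) < #(A e') := by
    intro e he e' he' κ κ' c1 c0 hκ hκ' hc hw
    obtain ⟨a1, a2, a3, a4, a5, a6, -, a8⟩ := hE e he
    obtain ⟨b1, b2, b3, b4, b5, b6, -, b8⟩ := hE e' he'
    by_cases h0 : c1 = 0 ∧ c0 = 0
    · left
      have z1 : f e' e.1 = 0 := by
        have := hw e.1
        rw [h0.1, h0.2, a5] at this
        have : κ * f e' e.1 = 0 := by linarith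
        exact (mul_eq_zero.1 this).resolve_left hκ.ne'
      have z2 : f e' e.2 = 0 := by
        have := hw e.2
        rw [h0.1, h0.2, a6] at this
        have : κ * f e' e.2 = 0 := by linarith
        exact (mul_eq_zero.1 this).resolve_left hκ.ne'
      apply Prod.ext
      · rcases b8 _ a1 z1 with h | h
        · exact h
        · rw [h] at a3; linarith
      · rcases b8 _ a2 z2 with h | h
        · rw [h] at a4; linarith
        · exact h
    right
    rcases le_or_gt 0 c0 with hc0 | hc0
    · have hpos : ∀ w ∈ U, 0 < η w → κ' * f e w < κ * f e' w := by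
        intro w hwU hηw
        have h1 := hw w
        have h2 := hμ w hwU
        have : 0 < c1 * η w + c0 * μ w := by
          rcases hc.lt_or_eq with h | h
          · positivity
          · have : 0 < c0 := lt_of_le_of_ne hc0 (fun h' => h0 ⟨h.symm, h'.symm⟩)
            positivity
        linarith
      apply card_lt_card
      rw [ssubset_iff_of_subset]
      · refine ⟨e.1, mem_filter.2 ⟨a1, ?_, a3⟩, by simp [A, a5]⟩
        have := hpos _ a1 a3
        rw [a5, mul_zero] at this
        exact (mul_pos_iff_of_pos_left hκ).1 this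
      · intro w hw'
        rw [mem_filter] at hw' ⊢
        refine ⟨hw'.1, ?_, hw'.2.2⟩
        have := hpos _ hw'.1 hw'.2.2
        exact (mul_pos_iff_of_pos_left hκ).1 ((mul_pos hκ' hw'.2.1).trans this)
    · have hneg : ∀ w ∈ U, ¬ 0 < η w → κ * f e' w < κ' * f e w := by
        intro w hwU hηw
        have h1 := hw w
        have h2 := hμ w hwU
        have h3 : c1 * η w ≤ 0 := mul_nonpos_of_nonneg_of_nonpos hc (not_lt.1 hηw)
        have h4 : c0 * μ w < 0 := mul_neg_of_neg_of_pos hc0 h2
        linarith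
      have : #(B e') < #(B e) := by
        apply card_lt_card
        rw [ssubset_iff_of_subset]
        · refine ⟨e'.2, mem_filter.2 ⟨b2, ?_, not_lt.2 b4.le⟩, by simp [B, b6]⟩
          have := hneg _ b2 (not_lt.2 b4.le)
          rw [b6, mul_zero] at this
          exact (mul_pos_iff_of_pos_left hκ').1 this
        · intro w hw'
          rw [mem_filter] at hw' ⊢
          refine ⟨hw'.1, ?_, hw'.2.2⟩
          have := hneg _ hw'.1 hw'.2.2
          exact (mul_pos_iff_of_pos_left hκ').1 ((mul_pos hκ hw'.2.1).trans this)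
      have := hAB e he
      have := hAB e' he'
      omega
  have : #E ≤ #(range (k + 1)) := by
    apply card_le_card_of_injOn (fun e => #(A e))
    · intro e he
      have := hAB e he
      simp only [coe_range, Set.mem_Iio]
      omega
    · intro e he e' he' hee
      simp only at hee
      obtain ⟨κ, κ', c1, c0, hκ, hκ', hw⟩ := hid e he e' he'
      rcases le_total 0 c1 with hc | hc
      · rcases key e he e' he' κ κ' c1 c0 hκ hκ' hc hw with h | h
        · exact h
        · omega
      · rcases key e' he' e he κ' κ (-c1) (-c0) hκ' hκ (by linarith)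
          (fun w => by have := hw w; linarith) with h | h
        · exact h.symm
        · omega
  simpa using this

end A

end Pool.Agent.SIG
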