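import Pool.Agent.Lib.MP_402e48_co.Geom

/-!
Counting shallow pairs together with extra `k`-facets; openness of the three conditions.
-/

namespace Pool.Agent.SIG

open Finset Filter Topology

variable {ι : Type*} [Fintype ι] [DecidableEq ι]

/-- strict `k`-facet -/
def Fac (P : ι → V) (k : ℕ) (x y c : ι) : Prop :=
  x ≠ y ∧ c ≠ x ∧ c ≠ y ∧ ∃ N : Finset ι, #N = k ∧ (∀ w ∈ N, 0 < D P x y c w) ∧
    ∀ w, w ≠ x → w ≠ y → w ≠ c → w ∉ N → D P x y c w < 0

open Classical in
theorem Fac.card {P : ι → V} {k : ℕ} {x y c : ι} (h : Fac P k x y c) :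
    #{w | 0 < D P x y c w} = k := by
  obtain ⟨-, -, -, N, hN, h1, h2⟩ := h
  rw [← hN]
  congr 1
  ext w
  simp only [mem_filter, mem_univ, true_and]
  refine ⟨fun h => ?_, h1 w⟩
  by_contra hw
  refine lt_asymm h (h2 w ?_ ?_ ?_ hw)
  · rintro rfl; rw [D_1] at h; exact lt_irrefl _ h
  · rintro rfl; rw [D_2] at h; exact lt_irrefl _ h
  · rintro rfl; rw [D_3] at h; exact lt_irrefl _ h

open Classical in
theorem triples_gp (P : ι → V) (k : ℕ) (gp : GP P) (cv : Cvx P)
    (hinj : Function.Injective fun a => P a 0)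
    (T : Finset (ι × ι × ι)) (hT : ∀ t ∈ T, t.1 ≠ t.2.1 ∧ t.2.2 ≠ t.1 ∧ t.2.2 ≠ t.2.1 ∧
      #{w | 0 < D P t.1 t.2.1 t.2.2 w} = k) :
    #T ≤ 6 * (k + 1) * Fintype.card ι := by
  let M : Finset (ι × ι × ι) := {t | (P t.2.1 0 - P t.1 0) * (P t.2.2 0 - P t.1 0) < 0 ∧
    #{w | 0 < D P t.1 t.2.1 t.2.2 w} = k}
  have hM : #M ≤ 2 * (k + 1) * Fintype.card ι := by
    rw [card_eq_sum_card_fiberwise (f := fun t => t.1) (t := univ) (fun _ _ => mem_univ _)]
    rw [mul_comm, ← card_univ, ← smul_eq_mul]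
    apply sum_le_card_nsmul
    intro v _
    have h1 := claimB P k gp cv v ![1, 0, 0]
    have h2 := claimB P k gp cv v ![-1, 0, 0]
    refine le_trans ?_ ((card_union_le _ _).trans ((add_le_add h1 h2).trans (by omega)))
    apply card_le_card_of_injOn (fun t => t.2)
    · intro t ht
      simp only [M, coe_filter, mem_filter, mem_univ, true_and, Set.mem_ofPred_eq] at ht
      obtain ⟨⟨a1, a2⟩, rfl⟩ := ht
      simp only [coe_union, coe_filter, mem_univ, true_and, Set.mem_union, Set.mem_ofPred_eq, dot,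
        Matrix.cons_val_zero, Matrix.cons_val_one, Matrix.cons_val_two,
        Matrix.head_cons, Matrix.tail_cons, Pi.sub_apply]
      rcases mul_neg_iff.1 a1 with h | h
      · exact Or.inl ⟨by linarith, by linarith, a2⟩
      · exact Or.inr ⟨by linarith, by linarith, a2⟩
    · intro t ht t' ht' h
      simp only [coe_filter, Set.mem_ofPred_eq] at ht ht'
      exact Prod.ext (ht.2.trans ht'.2.symm) h
  have hsub : T ⊆ M ∪ (M.image fun t => (t.2.1, t.2.2, t.1)) ∪
      (M.image fun t => (t.2.2, t.1, t.2.1)) := by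
    rintro ⟨x, y, z⟩ he
    obtain ⟨hxy, hzx, hzy, hk⟩ := hT _ he
    simp only at hxy hzx hzy hk
    have n1 : P x 0 ≠ P y 0 := fun h => hxy (hinj h)
    have n2 : P z 0 ≠ P x 0 := fun h => hzx (hinj h)
    have n3 : P z 0 ≠ P y 0 := fun h => hzy (hinj h)
    have : (P y 0 - P x 0) * (P z 0 - P x 0) < 0 ∨ (P x 0 - P z 0) * (P y 0 - P z 0) < 0 ∨
        (P z 0 - P y 0) * (P x 0 - P y 0) < 0 := by
      rcases lt_or_gt_of_ne n1 with a | a <;> rcases lt_or_gt_of_ne n2 with b | b <;>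
        rcases lt_or_gt_of_ne n3 with c | c <;>
        first
        | (left; nlinarith)
        | (right; left; nlinarith)
        | (right; right; nlinarith)
    simp only [mem_union, mem_image]
    rcases this with h | h | h
    · exact Or.inl (Or.inl (by simp only [M, mem_filter]; exact ⟨mem_univ _, h, hk⟩))
    · refine Or.inl (Or.inr ⟨(z, x, y), ?_, rfl⟩)
      simp only [M, mem_filter]
      refine ⟨mem_univ _, h, ?_⟩
      simpa only [D_rot P z x y] using hk
    · refine Or.inr ⟨(y, z, x), ?_, rfl⟩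
      simp only [M, mem_filter]
      refine ⟨mem_univ _, h, ?_⟩
      simpa only [D_rot P x y z] using hk
  have h1 := (card_le_card hsub).trans ((card_union_le _ _).trans
    (add_le_add ((card_union_le _ _).trans (add_le_add le_rfl card_image_le)) card_image_le))
  nlinarith

theorem main_gp2 (P : ι → V) (k : ℕ) (gp : GP P) (cv : Cvx P)
    (hinj : Function.Injective fun a => P a 0) (hn : 2 * k + 3 ≤ Fintype.card ι)
    (G : Finset (ι × ι)) (hG : ∀ e ∈ G, Good P k e.1 e.2)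
    (T : Finset (ι × ι × ι)) (hT : ∀ t ∈ T, Fac P k t.1 t.2.1 t.2.2)
    (hd : ∀ t ∈ T, (t.1, t.2.1) ∉ G) :
    #G + #T ≤ 6 * (k + 1) * Fintype.card ι := by
  classical
  have hz : ∀ e : ι × ι, ∃ z, e ∈ G → z ≠ e.1 ∧ z ≠ e.2 ∧ #{w | 0 < D P e.1 e.2 z w} = k := by
    intro e
    by_cases he : e ∈ G
    · obtain ⟨z, h⟩ := claimA P k gp cv hn e.1 e.2 (hG e he)
      exact ⟨z, fun _ => by convert h⟩
    · exact ⟨e.1, fun h => absurd h he⟩
  choose z hz using hz
  let f : ι × ι → ι × ι × ι := fun e => (e.1, e.2, z e)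
  have hf : Function.Injective f := fun e e' h => by
    simp only [f, Prod.mk.injEq] at h
    exact Prod.ext h.1 h.2.1
  have hdis : Disjoint (G.image f) T := by
    rw [disjoint_left]
    intro t ht ht'
    obtain ⟨e, he, rfl⟩ := mem_image.1 ht
    exact hd _ ht' he
  rw [← card_image_of_injective G hf, ← card_union_of_disjoint hdis]
  apply triples_gp P k gp cv hinj
  intro t ht
  rcases mem_union.1 ht with ht | ht
  · obtain ⟨e, he, rfl⟩ := mem_image.1 ht
    exact ⟨(hG e he).1, (hz e he).1, (hz e he).2.1, by convert (hz e he).2.2⟩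
  · have := hT t ht
    exact ⟨this.1, this.2.1, this.2.2.1, by convert this.card⟩

section opn

variable (R : ℝ → ι → V) (hR : ∀ a i, Continuous fun ε => R ε a i)

omit [Fintype ι] [DecidableEq ι] in
include hR in
theorem ev_dot (l : V) (z w : ι) :
    ∀ᶠ ε in 𝓝 (0 : ℝ), 0 < dot l (R 0 z - R 0 w) → 0 < dot l (R ε z - R ε w) := by
  by_cases h : 0 < dot l (R 0 z - R 0 w)
  · have hc : Continuous fun ε : ℝ => dot l (R ε z - R ε w) := by
      simp only [dot, Pi.sub_apply]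
      fun_prop
    exact ((hc.tendsto 0).eventually (lt_mem_nhds h)).mono fun ε hε _ => hε
  · exact Eventually.of_forall fun ε h' => absurd h' h

omit [Fintype ι] [DecidableEq ι] in
include hR in
theorem cont_D (a b c d : ι) : Continuous fun ε : ℝ => D (R ε) a b c d := by
  simp only [D, det3, Pi.sub_apply]
  fun_prop

omit [DecidableEq ι] in
include hR in
theorem ev_cvx (h : Cvx (R 0)) : ∀ᶠ ε in 𝓝 (0 : ℝ), Cvx (R ε) := by
  refine eventually_all.2 fun v => ?_
  obtain ⟨μ, hμ⟩ := h v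
  exact (eventually_all.2 fun z => ev_dot R hR μ z v).mono fun ε hε =>
    ⟨μ, fun z hz => hε z (hμ z hz)⟩

omit [DecidableEq ι] in
include hR in
theorem ev_good (k : ℕ) (x y : ι) (h : Good (R 0) k x y) :
    ∀ᶠ ε in 𝓝 (0 : ℝ), Good (R ε) k x y := by
  obtain ⟨hxy, l, N, hN, hl⟩ := h
  exact ((eventually_all.2 fun z => ev_dot R hR l z x).and
    (eventually_all.2 fun z => ev_dot R hR l z y)).mono fun ε hε =>
    ⟨hxy, l, N, hN, fun z a b c => ⟨hε.1 z (hl z a b c).1, hε.2 z (hl z a b c).2⟩⟩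

omit [DecidableEq ι] in
include hR in
theorem ev_fac (k : ℕ) (x y c : ι) (h : Fac (R 0) k x y c) :
    ∀ᶠ ε in 𝓝 (0 : ℝ), Fac (R ε) k x y c := by
  obtain ⟨h1, h2, h3, N, hN, hp, hm⟩ := h
  have e1 : ∀ w, ∀ᶠ ε in 𝓝 (0 : ℝ), 0 < D (R 0) x y c w → 0 < D (R ε) x y c w := by
    intro w
    by_cases h : 0 < D (R 0) x y c w
    · exact (((cont_D R hR x y c w).tendsto 0).eventually (lt_mem_nhds h)).mono fun ε hε _ => hε
    · exact Eventually.of_forall fun ε h' => absurd h' h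
  have e2 : ∀ w, ∀ᶠ ε in 𝓝 (0 : ℝ), D (R 0) x y c w < 0 → D (R ε) x y c w < 0 := by
    intro w
    by_cases h : D (R 0) x y c w < 0
    · exact (((cont_D R hR x y c w).tendsto 0).eventually (gt_mem_nhds h)).mono fun ε hε _ => hε
    · exact Eventually.of_forall fun ε h' => absurd h' h
  exact ((eventually_all.2 e1).and (eventually_all.2 e2)).mono fun ε hε =>
    ⟨h1, h2, h3, N, hN, fun w hw => hε.1 w (hp w hw), fun w a b c d => hε.2 w (hm w a b c d)⟩

end opn

theorem main_count2 (P : ι → V) (k : ℕ) (cv : Cvx P) (hn : 2 * k + 3 ≤ Fintype.card ι)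
    (G : Finset (ι × ι)) (hG : ∀ e ∈ G, Good P k e.1 e.2)
    (T : Finset (ι × ι × ι)) (hT : ∀ t ∈ T, Fac P k t.1 t.2.1 t.2.2)
    (hd : ∀ t ∈ T, (t.1, t.2.1) ∉ G) :
    #G + #T ≤ 6 * (k + 1) * Fintype.card ι := by
  classical
  let t : ι → ℝ := fun a => ((Fintype.equivFin ι a : ℕ) : ℝ)
  have ht : Function.Injective t := fun a b h =>
    (Fintype.equivFin ι).injective (Fin.ext (Nat.cast_injective (R := ℝ) h))
  have hR : ∀ a i, Continuous fun ε => Q P t ε a i := by
    intro a i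
    simp only [Q, Pi.add_apply, Pi.smul_apply, smul_eq_mul]
    fun_prop
  have h0 : Q P t 0 = P := by
    funext a
    simp [Q]
  have e1 := ev_cvx (Q P t) hR (by rwa [h0])
  have e2 : ∀ᶠ ε in 𝓝 (0 : ℝ), ∀ e ∈ G, Good (Q P t ε) k e.1 e.2 :=
    (eventually_all_finset G).2 fun e he => ev_good (Q P t) hR k _ _ (by rw [h0]; exact hG e he)
  have e5 : ∀ᶠ ε in 𝓝 (0 : ℝ), ∀ e ∈ T, Fac (Q P t ε) k e.1 e.2.1 e.2.2 :=
    (eventually_all_finset T).2 fun e he => ev_fac (Q P t) hR k _ _ _ (by rw [h0]; exact hT e he)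
  have e3 : ∀ᶠ ε in 𝓝[≠] (0 : ℝ), ∀ a b c d, a ≠ b → a ≠ c → a ≠ d → b ≠ c → b ≠ d → c ≠ d →
      D (Q P t ε) a b c d ≠ 0 := by
    refine eventually_all.2 fun a => eventually_all.2 fun b => eventually_all.2 fun c =>
      eventually_all.2 fun d => ev_D P t ht a b c d
  have e4 : ∀ᶠ ε in 𝓝[≠] (0 : ℝ), ∀ a b, Q P t ε a 0 = Q P t ε b 0 → a = b := by
    refine eventually_all.2 fun a => eventually_all.2 fun b => ev_inj P t ht a b
  obtain ⟨ε, ⟨h1, h2, h5⟩, h3, h4⟩ :=
    (((e1.and (e2.and e5)).filter_mono nhdsWithin_le_nhds).and (e3.and e4)).exists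
  exact main_gp2 (Q P t ε) k h3 h1 h4 hn G h2 T h5 hd

end Pool.Agent.SIG
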