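import Pool.Agent.Lib.MP_402e48_co.Count2

/-!
Edges of the closed graph: shallow pairs, or long diagonals of a full regular wheel.
-/

namespace Pool.Agent.SIG

open Finset Filter Topology

variable {ι : Type*} [Fintype ι] [DecidableEq ι]

/-- power lifting -/
def L (X Y r : ι → ℝ) : ι → V := fun z => ![X z, Y z, X z ^ 2 + Y z ^ 2 - r z ^ 2]

omit [Fintype ι] [DecidableEq ι] in
theorem hdotL (X Y r : ι → ℝ) (q0 q1 : ℝ) (z w : ι) :
    dot ![-2 * q0, -2 * q1, 1] (L X Y r z - L X Y r w) =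
      ((X z - q0) ^ 2 + (Y z - q1) ^ 2 - r z ^ 2) - ((X w - q0) ^ 2 + (Y w - q1) ^ 2 - r w ^ 2) := by
  simp only [dot, L, Pi.sub_apply, Matrix.cons_val_zero, Matrix.cons_val_one,
    Matrix.cons_val_two, Matrix.head_cons, Matrix.tail_cons]
  ring

omit [Fintype ι] [DecidableEq ι] in
theorem cvxL (X Y r : ι → ℝ) (hr : ∀ x, 0 < r x)
    (hsep : ∀ x z, z ≠ x → r x ^ 2 ≤ (X z - X x) ^ 2 + (Y z - Y x) ^ 2) : Cvx (L X Y r) := by
  intro v
  refine ⟨![-2 * X v, -2 * Y v, 1], fun z hz => ?_⟩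
  rw [hdotL]
  have := hsep z v hz.symm
  have := hr v
  nlinarith

theorem good_strict (X Y r : ι → ℝ) (hr : ∀ x, 0 < r x)
    (hsep : ∀ x z, z ≠ x → r x ^ 2 ≤ (X z - X x) ^ 2 + (Y z - Y x) ^ 2) (x y : ι) (hxy : x ≠ y)
    (hd : (X y - X x) ^ 2 + (Y y - Y x) ^ 2 < (r x + r y) ^ 2) : Good (L X Y r) 2 x y := by
  classical
  have hx := hr x
  have hy := hr y
  have hs : 0 < r x + r y := by linarith
  set s := r x + r y with hsdef
  set w0 := (X x - X y) / s with hw0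
  set w1 := (Y x - Y y) / s with hw1
  have e0 : X x - X y = s * w0 := by rw [hw0]; field_simp
  have e1 : Y x - Y y = s * w1 := by rw [hw1]; field_simp
  have hw : w0 ^ 2 + w1 ^ 2 < 1 := by
    have : s ^ 2 * (w0 ^ 2 + w1 ^ 2) < s ^ 2 * 1 := by
      have : (X y - X x) ^ 2 + (Y y - Y x) ^ 2 = s ^ 2 * (w0 ^ 2 + w1 ^ 2) := by
        rw [← neg_sub (X x), ← neg_sub (Y x), e0, e1]; ring
      linarith
    exact lt_of_mul_lt_mul_left this (by positivity)
  have hwpos : 0 < w0 ^ 2 + w1 ^ 2 := by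
    have h1 := hsep y x hxy
    rw [e0, e1] at h1
    have : 0 < s ^ 2 * (w0 ^ 2 + w1 ^ 2) := by nlinarith
    exact (mul_pos_iff_of_pos_left (by positivity)).1 this
  set q0 := X x - r x * w0 with hq0
  set q1 := Y x - r x * w1 with hq1
  have x0 : X x - q0 = r x * w0 := by rw [hq0]; ring
  have x1 : Y x - q1 = r x * w1 := by rw [hq1]; ring
  set c := r y / r x with hc
  have hc0 : 0 < c := div_pos hy hx
  have hc1 : c * r x = r y := div_mul_cancel₀ _ hx.ne'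
  have y0 : X y - q0 = -c * (r x * w0) := by
    rw [hq0]; linear_combination (-1) * e0 - w0 * hsdef + w0 * hc1
  have y1 : Y y - q1 = -c * (r x * w1) := by
    rw [hq1]; linear_combination (-1) * e1 - w1 * hsdef + w1 * hc1
  let pw : ι → ℝ := fun z => (X z - q0) ^ 2 + (Y z - q1) ^ 2 - r z ^ 2
  have px : pw x < 0 := by
    simp only [pw, x0, x1]
    nlinarith [mul_lt_mul_of_pos_left hw (pow_pos hx 2)]
  have py : pw y < 0 := by
    simp only [pw, y0, y1]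
    have := mul_lt_mul_of_pos_left hw (pow_pos hy 2)
    rw [← hc1] at this ⊢
    nlinarith
  have ang : ∀ a b, a ≠ b → pw a < 0 → 2 * ((X a - q0) * (X b - q0) + (Y a - q1) * (Y b - q1)) <
      (X b - q0) ^ 2 + (Y b - q1) ^ 2 := by
    intro a b hab ha
    have := hsep a b hab.symm
    simp only [pw] at ha
    nlinarith
  let β : ι → ℝ := fun a => (r x * w0) * (Y a - q1) - (r x * w1) * (X a - q0)
  let α : ι → ℝ := fun a => (X a - q0) * (r x * w0) + (Y a - q1) * (r x * w1)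
  have hu : 0 < (r x * w0) ^ 2 + (r x * w1) ^ 2 := by
    nlinarith [mul_pos (pow_pos hx 2) hwpos]
  have st : ∀ a, a ≠ x → a ≠ y → pw a < 0 → 3 * α a ^ 2 < β a ^ 2 := by
    intro a hax hay ha
    have i1 := ang x a hax.symm px
    have i2 := ang a x hax ha
    have i3 := ang y a hay.symm py
    have i4 := ang a y hay ha
    rw [x0, x1] at i1 i2
    rw [y0, y1] at i3 i4
    exact alg1 _ _ _ _ c hc0 hu (by linarith) (by linarith) (by linarith) (by linarith)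
  let N : Finset ι := {z | z ≠ x ∧ z ≠ y ∧ pw z < 0}
  have uniq : ∀ a ∈ N, ∀ b ∈ N, 0 ≤ β a * β b → a = b := by
    intro a ha b hb hab
    simp only [N, mem_filter, mem_univ, true_and] at ha hb
    by_contra hne
    have i1 := mul_lt_mul_of_pos_right (ang a b hne ha.2.2) hu
    have i2 := mul_lt_mul_of_pos_right (ang b a (Ne.symm hne) hb.2.2) hu
    refine alg2 (α a) (β a) (α b) (β b) (st a ha.1 ha.2.1 ha.2.2) (st b hb.1 hb.2.1 hb.2.2) hab ?_ ?_
    · simp only [α, β]; linarith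
    · simp only [α, β]; linarith
  refine ⟨hxy, ![-2 * q0, -2 * q1, 1], N, ?_, fun z hzx hzy hz => ?_⟩
  · rw [← card_filter_add_card_filter_not (s := N) (fun a => 0 ≤ β a)]
    have c1 : #{a ∈ N | 0 ≤ β a} ≤ 1 := card_le_one.2 fun a ha b hb => by
      rw [mem_filter] at ha hb
      exact uniq a ha.1 b hb.1 (mul_nonneg ha.2 hb.2)
    have c2 : #{a ∈ N | ¬ 0 ≤ β a} ≤ 1 := card_le_one.2 fun a ha b hb => by
      rw [mem_filter] at ha hb
      exact uniq a ha.1 b hb.1 (mul_nonneg_of_nonpos_of_nonpos (not_le.1 ha.2).le (not_le.1 hb.2).le)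
    omega
  · have : 0 ≤ pw z := by
      by_contra h
      exact hz (by simp only [N, mem_filter, mem_univ, true_and]; exact ⟨hzx, hzy, not_le.1 h⟩)
    rw [hdotL, hdotL]
    simp only [pw] at this px py
    constructor <;> linarith

theorem ang60 (s s' α β : ℝ) (a1 : 2 * s * α ≤ α ^ 2 + β ^ 2) (a2 : 2 * α ≤ s)
    (a3 : -2 * s' * α ≤ α ^ 2 + β ^ 2) (a4 : -2 * α ≤ s') : 3 * α ^ 2 ≤ β ^ 2 := by
  rcases le_total 0 α with h | h
  · nlinarith [mul_le_mul_of_nonneg_right a2 h]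
  · nlinarith [mul_le_mul_of_nonpos_right a4 h]

theorem pair_core (s s' αa βa αb βb pa pb : ℝ) (hpa : pa ≤ 0) (hpb : pb ≤ 0)
    (a1 : 2 * s * αa ≤ αa ^ 2 + βa ^ 2) (a2 : 2 * αa ≤ s)
    (a3 : -2 * s' * αa ≤ αa ^ 2 + βa ^ 2) (a4 : -2 * αa ≤ s')
    (b1 : 2 * s * αb ≤ αb ^ 2 + βb ^ 2) (b2 : 2 * αb ≤ s)
    (b3 : -2 * s' * αb ≤ αb ^ 2 + βb ^ 2) (b4 : -2 * αb ≤ s')
    (ab : 2 * (αa * αb + βa * βb) ≤ αb ^ 2 + βb ^ 2 + pa)
    (ba : 2 * (αa * αb + βa * βb) ≤ αa ^ 2 + βa ^ 2 + pb) (hβ : 0 < βa * βb) :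
    pa = 0 ∧ pb = 0 ∧ s' = s ∧ βa = βb ∧ αa = -αb ∧ (2 * αa) ^ 2 = s ^ 2 ∧
      4 * βa ^ 2 = 3 * s ^ 2 := by
  have ha := ang60 s s' αa βa a1 a2 a3 a4
  have hb := ang60 s s' αb βb b1 b2 b3 b4
  have e1 : (3 * (αa * αb)) ^ 2 ≤ (βa * βb) ^ 2 := by
    have := mul_le_mul ha hb (by positivity) (by positivity)
    nlinarith
  have e2 := (abs_le_of_sq_le_sq' e1 hβ.le).1
  have e3 : βa * βb ≤ βa ^ 2 := by linarith
  have e4 : βa * βb ≤ βb ^ 2 := by linarith
  have ha0 : βa ≠ 0 := by rintro rfl; simp at hβ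
  have hb0 : βb ≠ 0 := by rintro rfl; simp at hβ
  have e5 : βa = βb := by
    have h1 : (βa * βb) * (βa - βb) ^ 2 ≤ 0 := by
      have := mul_nonneg (sub_nonneg.2 e3) (sub_nonneg.2 e4)
      nlinarith
    have h2 : (βa - βb) ^ 2 ≤ 0 := by
      by_contra h
      exact absurd (mul_pos hβ (not_le.1 h)) (not_lt.2 h1)
    have := pow_eq_zero_iff (two_ne_zero) |>.1 (le_antisymm h2 (sq_nonneg _))
    linarith
  subst e5
  have m0 : 0 < βa ^ 2 := by positivity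
  have p1 : pa = 0 := by nlinarith
  have p2 : pb = 0 := by nlinarith
  have q1 : 3 * αa ^ 2 = βa ^ 2 := by nlinarith
  have q2 : 3 * αb ^ 2 = βa ^ 2 := by nlinarith
  have q3 : 3 * (αa * αb) = -βa ^ 2 := by nlinarith
  have q4 : αa = -αb := by
    have : (αa + αb) ^ 2 = 0 := by nlinarith
    have := pow_eq_zero_iff (two_ne_zero) |>.1 this
    linarith
  subst q4
  have hne : αb ≠ 0 := by rintro rfl; simp at q2; exact ha0 (by simpa using q2.symm)
  rcases lt_or_gt_of_ne hne with h | h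
  · have s1 : s ≤ -2 * αb := by
      by_contra hc
      nlinarith [mul_pos (sub_pos.2 (not_le.1 hc)) (neg_pos.2 h)]
    have s2 : s' ≤ -2 * αb := by
      by_contra hc
      nlinarith [mul_pos (sub_pos.2 (not_le.1 hc)) (neg_pos.2 h)]
    have s3 : s = -2 * αb := by linarith
    have s4 : s' = -2 * αb := by linarith
    refine ⟨p1, p2, by linarith, rfl, rfl, by rw [s3]; ring, by rw [s3]; linarith⟩
  · have s1 : s ≤ 2 * αb := by
      by_contra hc
      nlinarith [mul_pos (sub_pos.2 (not_le.1 hc)) h]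
    have s2 : s' ≤ 2 * αb := by
      by_contra hc
      nlinarith [mul_pos (sub_pos.2 (not_le.1 hc)) h]
    have s3 : s = 2 * αb := by linarith
    have s4 : s' = 2 * αb := by linarith
    refine ⟨p1, p2, by linarith, rfl, rfl, by rw [s3]; ring, by rw [s3]; linarith⟩

omit [Fintype ι] [DecidableEq ι] in
/-- two points on one side are the two rim points of a regular hexagon -/
theorem side_core (α β r : ι → ℝ) (hr : ∀ x, 0 < r x)
    (hsep : ∀ x z, z ≠ x → r x ^ 2 ≤ (α z - α x) ^ 2 + (β z - β x) ^ 2) (x y : ι)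
    (x0 : α x = r x) (x1 : β x = 0) (y0 : α y = -r y) (y1 : β y = 0) (a b : ι) (hab : a ≠ b)
    (ha : α a ^ 2 + β a ^ 2 - r a ^ 2 ≤ 0) (hb : α b ^ 2 + β b ^ 2 - r b ^ 2 ≤ 0)
    (hβ : 0 < β a * β b) :
    α a ^ 2 + β a ^ 2 - r a ^ 2 = 0 ∧ α b ^ 2 + β b ^ 2 - r b ^ 2 = 0 ∧ r y = r x ∧ β a = β b ∧
      α a = -α b ∧ (2 * α a) ^ 2 = r x ^ 2 ∧ 4 * β a ^ 2 = 3 * r x ^ 2 := by
  have hx := hr x
  have hy := hr y
  have key : ∀ a, β a ≠ 0 → α a ^ 2 + β a ^ 2 - r a ^ 2 ≤ 0 →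
      2 * r x * α a ≤ α a ^ 2 + β a ^ 2 ∧ 2 * α a ≤ r x ∧
      -2 * r y * α a ≤ α a ^ 2 + β a ^ 2 ∧ -2 * α a ≤ r y := by
    intro a h0 ha
    have n1 : a ≠ x := by rintro rfl; exact h0 x1
    have n2 : a ≠ y := by rintro rfl; exact h0 y1
    have i1 := hsep x a n1
    have i2 := hsep a x n1.symm
    have i3 := hsep y a n2
    have i4 := hsep a y n2.symm
    rw [x0, x1] at i1 i2
    rw [y0, y1] at i3 i4
    refine ⟨by nlinarith, ?_, by nlinarith, ?_⟩
    · by_contra hc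
      nlinarith [mul_pos (sub_pos.2 (not_le.1 hc)) hx]
    · by_contra hc
      nlinarith [mul_pos (sub_pos.2 (not_le.1 hc)) hy]
  have ha0 : β a ≠ 0 := by intro h; simp [h] at hβ
  have hb0 : β b ≠ 0 := by intro h; simp [h] at hβ
  obtain ⟨a1, a2, a3, a4⟩ := key a ha0 ha
  obtain ⟨b1, b2, b3, b4⟩ := key b hb0 hb
  have i1 := hsep a b hab.symm
  have i2 := hsep b a hab
  exact pair_core (r x) (r y) (α a) (β a) (α b) (β b) _ _ ha hb a1 a2 a3 a4 b1 b2 b3 b4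
    (by nlinarith) (by nlinarith) hβ

end Pool.Agent.SIG
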