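import Pool.Agent.Lib.MP_402e48_co.Comb

/-!
Shallow pairs of a finite point set in convex position in `ℝ³`: at most `6 (k+1) n` ordered pairs.
-/

namespace Pool.Agent.SIG

open Finset

abbrev V := Fin 3 → ℝ

def dot (l p : V) : ℝ := l 0 * p 0 + l 1 * p 1 + l 2 * p 2

def det3 (a b c : V) : ℝ :=
  a 0 * (b 1 * c 2 - b 2 * c 1) - a 1 * (b 0 * c 2 - b 2 * c 0) + a 2 * (b 0 * c 1 - b 1 * c 0)

def cross (a b : V) : V :=
  ![a 1 * b 2 - a 2 * b 1, a 2 * b 0 - a 0 * b 2, a 0 * b 1 - a 1 * b 0]

variable {ι : Type*} [Fintype ι] [DecidableEq ι]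

def D (P : ι → V) (a b c d : ι) : ℝ := det3 (P b - P a) (P c - P a) (P d - P a)

omit [Fintype ι] [DecidableEq ι] in
theorem D_rot (P : ι → V) (a b c z : ι) : D P b c a z = D P a b c z := by
  simp only [D, det3, Pi.sub_apply]; ring

omit [Fintype ι] [DecidableEq ι] in
theorem D_1 (P : ι → V) (a b c : ι) : D P a b c a = 0 := by
  simp only [D, det3, Pi.sub_apply]; ring

omit [Fintype ι] [DecidableEq ι] in
theorem D_2 (P : ι → V) (a b c : ι) : D P a b c b = 0 := by
  simp only [D, det3, Pi.sub_apply]; ring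

omit [Fintype ι] [DecidableEq ι] in
theorem D_3 (P : ι → V) (a b c : ι) : D P a b c c = 0 := by
  simp only [D, det3, Pi.sub_apply]; ring

theorem iden4 (l e z w v : V) (h : dot l e = 0) :
    dot l w * det3 e z v = dot l z * det3 e w v + dot l v * det3 e z w := by
  have : dot l w * det3 e z v - (dot l z * det3 e w v + dot l v * det3 e z w)
      = - dot l e * det3 z w v := by
    simp only [dot, det3]; ring
  rw [h] at this
  linarith

theorem iden5 (η μ a b a' b' w : V) :
    (dot η a * dot μ b - dot μ a * dot η b) * det3 a' b' w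
      - (dot η a' * dot μ b' - dot μ a' * dot η b') * det3 a b w
      = det3 (cross a b) (cross a' b') μ * dot η w
        + (- det3 (cross a b) (cross a' b') η) * dot μ w := by
  simp only [dot, det3, cross, Matrix.cons_val_zero, Matrix.cons_val_one, Matrix.cons_val_two,
    Matrix.head_cons, Matrix.tail_cons]
  ring

/-- general position -/
def GP (P : ι → V) : Prop :=
  ∀ a b c d, a ≠ b → a ≠ c → a ≠ d → b ≠ c → b ≠ d → c ≠ d → D P a b c d ≠ 0

/-- convex position -/
def Cvx (P : ι → V) : Prop := ∀ v, ∃ μ : V, ∀ z, z ≠ v → 0 < dot μ (P z - P v)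

/-- shallow pair -/
def Good (P : ι → V) (k : ℕ) (x y : ι) : Prop :=
  x ≠ y ∧ ∃ l : V, ∃ N : Finset ι, #N ≤ k ∧ ∀ z, z ≠ x → z ≠ y → z ∉ N →
    0 < dot l (P z - P x) ∧ 0 < dot l (P z - P y)

theorem claimA (P : ι → V) (k : ℕ) (gp : GP P) (cv : Cvx P) (hn : 2 * k + 3 ≤ Fintype.card ι)
    (x y : ι) (hg : Good P k x y) :
    ∃ z, z ≠ x ∧ z ≠ y ∧ #{w | 0 < D P x y z w} = k := by
  classical
  obtain ⟨hxy, l, N, hN, hl⟩ := hg
  have : ∃ l' : V, dot l' (P y - P x) = 0 ∧ ∀ z, z ≠ x → z ≠ y → z ∉ N →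
      0 < dot l' (P z - P x) := by
    rcases le_total 0 (dot l (P y - P x)) with h | h
    · obtain ⟨μ, hμ⟩ := cv y
      have h1 := hμ x hxy
      set t := dot l (P y - P x) / dot μ (P x - P y) with ht
      have ht0 : 0 ≤ t := div_nonneg h h1.le
      have ht1 : t * dot μ (P x - P y) = dot l (P y - P x) := div_mul_cancel₀ _ h1.ne'
      refine ⟨l + t • μ, ?_, fun z hzx hzy hz => ?_⟩
      · simp only [dot, Pi.sub_apply, Pi.add_apply, Pi.smul_apply, smul_eq_mul] at ht1 ⊢
        linarith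
      · have h2 := (hl z hzx hzy hz).2
        have h3 := mul_nonneg ht0 (hμ z hzy).le
        simp only [dot, Pi.sub_apply, Pi.add_apply, Pi.smul_apply, smul_eq_mul] at ht1 h2 h3 ⊢
        linarith
    · obtain ⟨μ, hμ⟩ := cv x
      have h1 := hμ y hxy.symm
      set t := - dot l (P y - P x) / dot μ (P y - P x) with ht
      have ht0 : 0 ≤ t := div_nonneg (by linarith) h1.le
      have ht1 : t * dot μ (P y - P x) = - dot l (P y - P x) := div_mul_cancel₀ _ h1.ne'
      refine ⟨l + t • μ, ?_, fun z hzx hzy hz => ?_⟩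
      · simp only [dot, Pi.sub_apply, Pi.add_apply, Pi.smul_apply, smul_eq_mul] at ht1 ⊢
        linarith
      · have h2 := (hl z hzx hzy hz).1
        have h3 := mul_nonneg ht0 (hμ z hzx).le
        simp only [dot, Pi.sub_apply, Pi.add_apply, Pi.smul_apply, smul_eq_mul] at ht1 h2 h3 ⊢
        linarith
  obtain ⟨l', h0, hl'⟩ := this
  set U : Finset ι := (univ.erase x).erase y with hU
  have memU : ∀ z, z ∈ U ↔ z ≠ y ∧ z ≠ x := fun z => by simp [hU]
  have cU : #U + 2 = Fintype.card ι := by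
    rw [hU, card_erase_of_mem (by simpa using hxy.symm), card_erase_of_mem (mem_univ _),
      card_univ]
    omega
  obtain ⟨z, hz, hk⟩ := exists_left_eq U (fun z w => D P x y z w) (fun z => dot l' (P z - P x)) k
    (fun z w => by simp only [D, det3, Pi.sub_apply]; ring)
    (fun z hz w hw hzw => gp x y z w hxy ((memU z).1 hz).2.symm ((memU w).1 hw).2.symm
      ((memU z).1 hz).1.symm ((memU w).1 hw).1.symm hzw)
    (fun z w v => iden4 l' _ _ _ _ h0)
    (le_trans (card_le_card (fun z hz => by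
      rw [mem_filter] at hz
      by_contra hN'
      exact hz.2 (hl' z ((memU z).1 hz.1).2 ((memU z).1 hz.1).1 hN'))) hN)
    (by omega)
  refine ⟨z, ((memU z).1 hz).2, ((memU z).1 hz).1, ?_⟩
  rw [← hk]
  congr 1
  ext w
  simp only [mem_filter, mem_univ, true_and, memU]
  refine ⟨fun h => ⟨⟨?_, ?_⟩, h⟩, fun h => h.2⟩
  · rintro rfl; rw [D_2] at h; exact lt_irrefl _ h
  · rintro rfl; rw [D_1] at h; exact lt_irrefl _ h

open Classical in
theorem claimB (P : ι → V) (k : ℕ) (gp : GP P) (cv : Cvx P) (v : ι) (η : V) :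
    #{e : ι × ι | 0 < dot η (P e.1 - P v) ∧ dot η (P e.2 - P v) < 0 ∧
      #{w | 0 < D P v e.1 e.2 w} = k} ≤ k + 1 := by
  obtain ⟨μ, hμ⟩ := cv v
  have hv : dot η (P v - P v) = 0 := by simp [dot]
  apply lovasz (univ.erase v) _ (fun e w => D P v e.1 e.2 w) (fun w => dot η (P w - P v))
    (fun w => dot μ (P w - P v)) k (fun w hw => hμ w (by simpa using hw))
  · intro e he
    simp only [mem_filter, mem_univ, true_and] at he
    obtain ⟨h1, h2, h3⟩ := he
    have n1 : e.1 ≠ v := by intro h; rw [h, hv] at h1; exact lt_irrefl _ h1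
    have n2 : e.2 ≠ v := by intro h; rw [h, hv] at h2; exact lt_irrefl _ h2
    have n3 : e.1 ≠ e.2 := by intro h; rw [h] at h1; linarith
    refine ⟨by simpa using n1, by simpa using n2, h1, h2, D_2 _ _ _ _, D_3 _ _ _ _, ?_, ?_⟩
    · rw [← h3]
      congr 1
      ext w
      simp only [mem_filter, mem_univ, true_and, mem_erase, and_true]
      refine ⟨fun h => h.2, fun h => ⟨?_, h⟩⟩
      rintro rfl; rw [D_1] at h; exact lt_irrefl _ h
    · intro w hw h0
      by_contra hc
      push Not at hc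
      exact gp v e.1 e.2 w n1.symm n2.symm (by simpa [eq_comm] using hw) n3 hc.1.symm hc.2.symm h0
  · intro e he e' he'
    simp only [mem_filter, mem_univ, true_and] at he he'
    have pos : ∀ e : ι × ι, 0 < dot η (P e.1 - P v) → dot η (P e.2 - P v) < 0 →
        0 < dot η (P e.1 - P v) * dot μ (P e.2 - P v)
          - dot μ (P e.1 - P v) * dot η (P e.2 - P v) := by
      intro e h1 h2
      have n1 : e.1 ≠ v := by intro h; rw [h, hv] at h1; exact lt_irrefl _ h1
      have n2 : e.2 ≠ v := by intro h; rw [h, hv] at h2; exact lt_irrefl _ h2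
      have := mul_pos h1 (hμ _ n2)
      have := mul_neg_of_pos_of_neg (hμ _ n1) h2
      linarith
    exact ⟨_, _, _, _, pos e he.1 he.2.1, pos e' he'.1 he'.2.1, fun w => iden5 η μ _ _ _ _ _⟩

theorem main_gp (P : ι → V) (k : ℕ) (gp : GP P) (cv : Cvx P)
    (hinj : Function.Injective fun a => P a 0) (hn : 2 * k + 3 ≤ Fintype.card ι)
    (G : Finset (ι × ι)) (hG : ∀ e ∈ G, Good P k e.1 e.2) :
    #G ≤ 6 * (k + 1) * Fintype.card ι := by
  classical
  let M : Finset (ι × ι × ι) := {t | (P t.2.1 0 - P t.1 0) * (P t.2.2 0 - P t.1 0) < 0 ∧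
    #{w | 0 < D P t.1 t.2.1 t.2.2 w} = k}
  have hM : #M ≤ 2 * (k + 1) * Fintype.card ι := by
    rw [card_eq_sum_card_fiberwise (f := fun t => t.1) (t := univ) (fun _ _ => mem_univ _)]
    rw [mul_comm, ← card_univ, ← smul_eq_mul]
    apply sum_le_card_nsmul
    intro v _
    have h1 := claimB P k gp cv v ![1, 0, 0]
    have h2 := claimB P k gp cv v ![-1, 0, 0]
    refine le_trans ?_ ((card_union_le _ _).trans ((add_le_add h1 h2).trans (by omega)))
    apply card_le_card_of_injOn (fun t => t.2)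
    · intro t ht
      simp only [M, coe_filter, mem_filter, mem_univ, true_and, Set.mem_ofPred_eq] at ht
      obtain ⟨⟨a1, a2⟩, rfl⟩ := ht
      simp only [coe_union, coe_filter, mem_univ, true_and, Set.mem_union, Set.mem_ofPred_eq, dot,
        Matrix.cons_val_zero, Matrix.cons_val_one, Matrix.cons_val_two,
        Matrix.head_cons, Matrix.tail_cons, Pi.sub_apply]
      rcases mul_neg_iff.1 a1 with h | h
      · exact Or.inl ⟨by linarith, by linarith, a2⟩
      · exact Or.inr ⟨by linarith, by linarith, a2⟩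
    · intro t ht t' ht' h
      simp only [coe_filter, Set.mem_ofPred_eq] at ht ht'
      exact Prod.ext (ht.2.trans ht'.2.symm) h
  have hsub : G ⊆ (M.image fun t => (t.1, t.2.1)) ∪ (M.image fun t => (t.2.1, t.2.2)) ∪
      (M.image fun t => (t.2.2, t.1)) := by
    rintro ⟨x, y⟩ he
    obtain ⟨z, hzx, hzy, hk⟩ := claimA P k gp cv hn x y (hG _ he)
    have hxy : x ≠ y := (hG _ he).1
    have n1 : P x 0 ≠ P y 0 := fun h => hxy (hinj h)
    have n2 : P z 0 ≠ P x 0 := fun h => hzx (hinj h)
    have n3 : P z 0 ≠ P y 0 := fun h => hzy (hinj h)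
    have : (P y 0 - P x 0) * (P z 0 - P x 0) < 0 ∨ (P x 0 - P z 0) * (P y 0 - P z 0) < 0 ∨
        (P z 0 - P y 0) * (P x 0 - P y 0) < 0 := by
      rcases lt_or_gt_of_ne n1 with a | a <;> rcases lt_or_gt_of_ne n2 with b | b <;>
        rcases lt_or_gt_of_ne n3 with c | c <;>
        first
        | (left; nlinarith)
        | (right; left; nlinarith)
        | (right; right; nlinarith)
    simp only [mem_union, mem_image]
    rcases this with h | h | h
    · exact Or.inl (Or.inl ⟨(x, y, z), by simp only [M, mem_filter]; exact ⟨mem_univ _, h, hk⟩, rfl⟩)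
    · refine Or.inl (Or.inr ⟨(z, x, y), ?_, rfl⟩)
      simp only [M, mem_filter]
      refine ⟨mem_univ _, h, ?_⟩
      simpa only [D_rot P z x y] using hk
    · refine Or.inr ⟨(y, z, x), ?_, rfl⟩
      simp only [M, mem_filter]
      refine ⟨mem_univ _, h, ?_⟩
      simpa only [D_rot P x y z] using hk
  have h1 := (card_le_card hsub).trans ((card_union_le _ _).trans
    (add_le_add ((card_union_le _ _).trans (add_le_add card_image_le card_image_le)) card_image_le))
  nlinarith

end Pool.Agent.SIG
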