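import Pool.Agent.Lib.MP_402e48_co.Perturb

/-!
Discs none of which contains the centre of another one: at most `18 n` ordered pairs intersect.
-/

namespace Pool.Agent.SIG

open Finset

theorem alg1 (a0 a1 u0 u1 c : ℝ) (hc : 0 < c) (hu : 0 < u0 ^ 2 + u1 ^ 2)
    (h1 : 2 * (a0 * u0 + a1 * u1) < a0 ^ 2 + a1 ^ 2) (h2 : 2 * (a0 * u0 + a1 * u1) < u0 ^ 2 + u1 ^ 2)
    (h3 : 2 * (a0 * (-c * u0) + a1 * (-c * u1)) < a0 ^ 2 + a1 ^ 2)
    (h4 : 2 * (a0 * (-c * u0) + a1 * (-c * u1)) < (-c * u0) ^ 2 + (-c * u1) ^ 2) :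
    3 * (a0 * u0 + a1 * u1) ^ 2 < (u0 * a1 - u1 * a0) ^ 2 := by
  set α := a0 * u0 + a1 * u1 with hα
  set A := a0 ^ 2 + a1 ^ 2 with hA
  set U := u0 ^ 2 + u1 ^ 2 with hU
  have hid : (u0 * a1 - u1 * a0) ^ 2 = A * U - α ^ 2 := by rw [hA, hU, hα]; ring
  rw [hid]
  have h3' : c * (-2 * α) < A := by rw [hα]; linarith
  have h4' : -2 * α < c * U := by
    have : c * (-2 * α) < c * (c * U) := by rw [hα, hU]; linarith
    exact lt_of_mul_lt_mul_left this hc.le
  rcases le_total 0 α with h | h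
  · nlinarith [mul_le_mul_of_nonneg_left h2.le h, mul_lt_mul_of_pos_right h1 hu]
  · have e1 : (-2 * α) * (-2 * α) ≤ (-2 * α) * (c * U) :=
      mul_le_mul_of_nonneg_left h4'.le (by linarith)
    have e2 := mul_lt_mul_of_pos_right h3' hu
    nlinarith

theorem alg2 (αa βa αb βb : ℝ) (ha : 3 * αa ^ 2 < βa ^ 2) (hb : 3 * αb ^ 2 < βb ^ 2)
    (hs : 0 ≤ βa * βb) (h1 : 2 * (αa * αb + βa * βb) < αa ^ 2 + βa ^ 2)
    (h2 : 2 * (αa * αb + βa * βb) < αb ^ 2 + βb ^ 2) : False := by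
  have e1 : (3 * (αa * αb)) ^ 2 ≤ (βa * βb) ^ 2 := by
    have := mul_le_mul ha.le hb.le (by positivity) (by positivity)
    nlinarith
  have e2 := (abs_le_of_sq_le_sq' e1 hs).1
  have e3 : βa * βb < βa ^ 2 := by linarith
  have e4 : βa * βb < βb ^ 2 := by linarith
  have := mul_lt_mul'' e3 e4 hs hs
  nlinarith

variable {ι : Type*} [Fintype ι] [DecidableEq ι]

theorem discs (X Y r : ι → ℝ) (hr : ∀ x, 0 < r x)
    (hsep : ∀ x z, z ≠ x → r x ^ 2 ≤ (X z - X x) ^ 2 + (Y z - Y x) ^ 2)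
    (G : Finset (ι × ι))
    (hG : ∀ e ∈ G, e.1 ≠ e.2 ∧ (X e.2 - X e.1) ^ 2 + (Y e.2 - Y e.1) ^ 2 < (r e.1 + r e.2) ^ 2) :
    #G ≤ 18 * Fintype.card ι := by
  classical
  rcases le_or_gt 7 (Fintype.card ι) with hn | hn
  swap
  · have := card_le_univ G
    rw [Fintype.card_prod] at this
    nlinarith
  let P : ι → V := fun z => ![X z, Y z, X z ^ 2 + Y z ^ 2 - r z ^ 2]
  have hdot : ∀ (q0 q1 : ℝ) z w, dot ![-2 * q0, -2 * q1, 1] (P z - P w) =
      ((X z - q0) ^ 2 + (Y z - q1) ^ 2 - r z ^ 2) - ((X w - q0) ^ 2 + (Y w - q1) ^ 2 - r w ^ 2) := by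
    intro q0 q1 z w
    simp only [dot, P, Pi.sub_apply, Matrix.cons_val_zero, Matrix.cons_val_one,
      Matrix.cons_val_two, Matrix.head_cons, Matrix.tail_cons]
    ring
  have cv : Cvx P := by
    intro v
    refine ⟨![-2 * X v, -2 * Y v, 1], fun z hz => ?_⟩
    rw [hdot]
    have := hsep z v hz.symm
    have := hr v
    nlinarith
  refine main_count P 2 cv hn G ?_
  rintro ⟨x, y⟩ he
  obtain ⟨hxy, hd⟩ := hG _ he
  simp only at hxy hd ⊢
  have hx := hr x
  have hy := hr y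
  have hs : 0 < r x + r y := by linarith
  set s := r x + r y with hsdef
  set w0 := (X x - X y) / s with hw0
  set w1 := (Y x - Y y) / s with hw1
  have e0 : X x - X y = s * w0 := by rw [hw0]; field_simp
  have e1 : Y x - Y y = s * w1 := by rw [hw1]; field_simp
  have hw : w0 ^ 2 + w1 ^ 2 < 1 := by
    have : s ^ 2 * (w0 ^ 2 + w1 ^ 2) < s ^ 2 * 1 := by
      have : (X y - X x) ^ 2 + (Y y - Y x) ^ 2 = s ^ 2 * (w0 ^ 2 + w1 ^ 2) := by
        rw [← neg_sub (X x), ← neg_sub (Y x), e0, e1]; ring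
      linarith
    exact lt_of_mul_lt_mul_left this (by positivity)
  have hwpos : 0 < w0 ^ 2 + w1 ^ 2 := by
    have h1 := hsep y x hxy
    rw [e0, e1] at h1
    have : 0 < s ^ 2 * (w0 ^ 2 + w1 ^ 2) := by nlinarith
    exact (mul_pos_iff_of_pos_left (by positivity)).1 this
  set q0 := X x - r x * w0 with hq0
  set q1 := Y x - r x * w1 with hq1
  have x0 : X x - q0 = r x * w0 := by rw [hq0]; ring
  have x1 : Y x - q1 = r x * w1 := by rw [hq1]; ring
  set c := r y / r x with hc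
  have hc0 : 0 < c := div_pos hy hx
  have hc1 : c * r x = r y := div_mul_cancel₀ _ hx.ne'
  have y0 : X y - q0 = -c * (r x * w0) := by
    rw [hq0]; linear_combination (-1) * e0 - w0 * hsdef + w0 * hc1
  have y1 : Y y - q1 = -c * (r x * w1) := by
    rw [hq1]; linear_combination (-1) * e1 - w1 * hsdef + w1 * hc1
  let pw : ι → ℝ := fun z => (X z - q0) ^ 2 + (Y z - q1) ^ 2 - r z ^ 2
  have px : pw x < 0 := by
    simp only [pw, x0, x1]
    nlinarith [mul_lt_mul_of_pos_left hw (pow_pos hx 2)]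
  have py : pw y < 0 := by
    simp only [pw, y0, y1]
    have := mul_lt_mul_of_pos_left hw (pow_pos hy 2)
    rw [← hc1] at this ⊢
    nlinarith
  have ang : ∀ a b, a ≠ b → pw a < 0 → 2 * ((X a - q0) * (X b - q0) + (Y a - q1) * (Y b - q1)) <
      (X b - q0) ^ 2 + (Y b - q1) ^ 2 := by
    intro a b hab ha
    have := hsep a b hab.symm
    simp only [pw] at ha
    nlinarith
  let β : ι → ℝ := fun a => (r x * w0) * (Y a - q1) - (r x * w1) * (X a - q0)
  let α : ι → ℝ := fun a => (X a - q0) * (r x * w0) + (Y a - q1) * (r x * w1)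
  have hu : 0 < (r x * w0) ^ 2 + (r x * w1) ^ 2 := by
    nlinarith [mul_pos (pow_pos hx 2) hwpos]
  have st : ∀ a, a ≠ x → a ≠ y → pw a < 0 → 3 * α a ^ 2 < β a ^ 2 := by
    intro a hax hay ha
    have i1 := ang x a hax.symm px
    have i2 := ang a x hax ha
    have i3 := ang y a hay.symm py
    have i4 := ang a y hay ha
    rw [x0, x1] at i1 i2
    rw [y0, y1] at i3 i4
    exact alg1 _ _ _ _ c hc0 hu (by linarith) (by linarith) (by linarith) (by linarith)
  let N : Finset ι := {z | z ≠ x ∧ z ≠ y ∧ pw z < 0}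
  have uniq : ∀ a ∈ N, ∀ b ∈ N, 0 ≤ β a * β b → a = b := by
    intro a ha b hb hab
    simp only [N, mem_filter, mem_univ, true_and] at ha hb
    by_contra hne
    have i1 := mul_lt_mul_of_pos_right (ang a b hne ha.2.2) hu
    have i2 := mul_lt_mul_of_pos_right (ang b a (Ne.symm hne) hb.2.2) hu
    refine alg2 (α a) (β a) (α b) (β b) (st a ha.1 ha.2.1 ha.2.2) (st b hb.1 hb.2.1 hb.2.2) hab ?_ ?_
    · simp only [α, β]; linarith
    · simp only [α, β]; linarith
  refine ⟨hxy, ![-2 * q0, -2 * q1, 1], N, ?_, fun z hzx hzy hz => ?_⟩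
  · rw [← card_filter_add_card_filter_not (s := N) (fun a => 0 ≤ β a)]
    have c1 : #{a ∈ N | 0 ≤ β a} ≤ 1 := card_le_one.2 fun a ha b hb => by
      rw [mem_filter] at ha hb
      exact uniq a ha.1 b hb.1 (mul_nonneg ha.2 hb.2)
    have c2 : #{a ∈ N | ¬ 0 ≤ β a} ≤ 1 := card_le_one.2 fun a ha b hb => by
      rw [mem_filter] at ha hb
      exact uniq a ha.1 b hb.1 (mul_nonneg_of_nonpos_of_nonpos (not_le.1 ha.2).le (not_le.1 hb.2).le)
    omega
  · have : 0 ≤ pw z := by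
      by_contra h
      exact hz (by simp only [N, mem_filter, mem_univ, true_and]; exact ⟨hzx, hzy, not_le.1 h⟩)
    rw [hdot, hdot]
    simp only [pw] at this px py
    constructor <;> linarith

end Pool.Agent.SIG
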