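import Pool.Agent.Lib.MP_402e48_co.Facets

/-!
Removal of the general position assumption by a perturbation along the moment curve.
-/

namespace Pool.Agent.SIG

open Finset Filter Topology

theorem cubic_ev (c0 c1 c2 c3 : ℝ) (h : c3 ≠ 0) :
    ∀ᶠ ε in 𝓝[≠] (0 : ℝ), c3 * ε ^ 3 + c2 * ε ^ 2 + c1 * ε + c0 ≠ 0 := by
  have hp : (⟨c3, c2, c1, c0⟩ : Cubic ℝ).toPoly ≠ 0 := Cubic.ne_zero_of_a_ne_zero h
  have hf := Polynomial.finite_setOfPred_isRoot hp
  refine (hf.eventually_cofinite_notMem.filter_mono (nhdsNE_le_cofinite 0)).mono ?_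
  intro ε hε
  simpa [Cubic.toPoly, Polynomial.IsRoot] using hε

variable {ι : Type*} [Fintype ι] [DecidableEq ι]

def mom (s : ℝ) : V := ![s, s ^ 2, s ^ 3]

def Q (P : ι → V) (t : ι → ℝ) (ε : ℝ) : ι → V := fun a => P a + ε • mom (t a)

omit [Fintype ι] [DecidableEq ι] in
theorem ev_pos (P : ι → V) (t : ι → ℝ) (l : V) (z w : ι) :
    ∀ᶠ ε in 𝓝[≠] (0 : ℝ), 0 < dot l (P z - P w) → 0 < dot l (Q P t ε z - Q P t ε w) := by
  by_cases h : 0 < dot l (P z - P w)
  · have hc : Continuous fun ε : ℝ => dot l (Q P t ε z - Q P t ε w) := by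
      simp only [dot, Q, Pi.sub_apply, Pi.add_apply, Pi.smul_apply, smul_eq_mul]
      fun_prop
    have h0 : 0 < dot l (Q P t 0 z - Q P t 0 w) := by simpa [Q] using h
    have := (hc.tendsto 0).eventually (lt_mem_nhds h0)
    exact (this.filter_mono nhdsWithin_le_nhds).mono fun ε hε _ => hε
  · exact Eventually.of_forall fun ε h' => absurd h' h

omit [Fintype ι] [DecidableEq ι] in
theorem ev_D (P : ι → V) (t : ι → ℝ) (ht : Function.Injective t) (a b c d : ι) :
    ∀ᶠ ε in 𝓝[≠] (0 : ℝ), a ≠ b → a ≠ c → a ≠ d → b ≠ c → b ≠ d → c ≠ d →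
      D (Q P t ε) a b c d ≠ 0 := by
  by_cases h : a ≠ b ∧ a ≠ c ∧ a ≠ d ∧ b ≠ c ∧ b ≠ d ∧ c ≠ d
  · obtain ⟨h1, h2, h3, h4, h5, h6⟩ := h
    have s : ∀ {x y : ι}, x ≠ y → t y - t x ≠ 0 := fun h h' => h (ht (by linarith))
    have hV : det3 (mom (t b) - mom (t a)) (mom (t c) - mom (t a)) (mom (t d) - mom (t a)) ≠ 0 := by
      have : det3 (mom (t b) - mom (t a)) (mom (t c) - mom (t a)) (mom (t d) - mom (t a)) =
          (t b - t a) * (t c - t a) * (t d - t a) * (t c - t b) * (t d - t b) * (t d - t c) := by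
        simp only [det3, mom, Pi.sub_apply, Matrix.cons_val_zero, Matrix.cons_val_one,
          Matrix.cons_val_two, Matrix.head_cons, Matrix.tail_cons]
        ring
      rw [this]
      exact mul_ne_zero (mul_ne_zero (mul_ne_zero (mul_ne_zero (mul_ne_zero (s h1) (s h2)) (s h3))
        (s h4)) (s h5)) (s h6)
    set u1 := P b - P a
    set u2 := P c - P a
    set u3 := P d - P a
    set v1 := mom (t b) - mom (t a)
    set v2 := mom (t c) - mom (t a)
    set v3 := mom (t d) - mom (t a)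
    refine (cubic_ev (det3 u1 u2 u3) (det3 v1 u2 u3 + det3 u1 v2 u3 + det3 u1 u2 v3)
      (det3 u1 v2 v3 + det3 v1 u2 v3 + det3 v1 v2 u3) _ hV).mono ?_
    intro ε hε _ _ _ _ _ _
    have e1 : Q P t ε b - Q P t ε a = u1 + ε • v1 := by
      simp only [Q, u1, v1, smul_sub]; abel
    have e2 : Q P t ε c - Q P t ε a = u2 + ε • v2 := by
      simp only [Q, u2, v2, smul_sub]; abel
    have e3 : Q P t ε d - Q P t ε a = u3 + ε • v3 := by
      simp only [Q, u3, v3, smul_sub]; abel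
    intro h0
    apply hε
    rw [D, e1, e2, e3] at h0
    rw [← h0]
    simp only [det3, Pi.add_apply, Pi.smul_apply, smul_eq_mul]
    ring
  · refine Eventually.of_forall fun ε h1 h2 h3 h4 h5 h6 => absurd ⟨h1, h2, h3, h4, h5, h6⟩ h

omit [Fintype ι] [DecidableEq ι] in
theorem ev_inj (P : ι → V) (t : ι → ℝ) (ht : Function.Injective t) (a b : ι) :
    ∀ᶠ ε in 𝓝[≠] (0 : ℝ), Q P t ε a 0 = Q P t ε b 0 → a = b := by
  by_cases h : a = b
  · exact Eventually.of_forall fun _ _ => h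
  · have s : t a - t b ≠ 0 := fun h' => h (ht (by linarith))
    refine (cubic_ev 0 0 (P a 0 - P b 0) _ s).mono ?_
    intro ε hε h0
    exfalso
    apply hε
    simp only [Q, mom, Pi.add_apply, Pi.smul_apply, smul_eq_mul, Matrix.cons_val_zero] at h0
    linear_combination ε ^ 2 * h0

theorem main_count (P : ι → V) (k : ℕ) (cv : Cvx P) (hn : 2 * k + 3 ≤ Fintype.card ι)
    (G : Finset (ι × ι)) (hG : ∀ e ∈ G, Good P k e.1 e.2) :
    #G ≤ 6 * (k + 1) * Fintype.card ι := by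
  classical
  let t : ι → ℝ := fun a => ((Fintype.equivFin ι a : ℕ) : ℝ)
  have ht : Function.Injective t := fun a b h =>
    (Fintype.equivFin ι).injective (Fin.ext (Nat.cast_injective (R := ℝ) h))
  choose μ hμ using cv
  have hG' : ∀ e : ι × ι, ∃ l : V, e ∈ G → ∃ N : Finset ι, #N ≤ k ∧
      ∀ z, z ≠ e.1 → z ≠ e.2 → z ∉ N →
      0 < dot l (P z - P e.1) ∧ 0 < dot l (P z - P e.2) := by
    intro e
    by_cases he : e ∈ G
    · obtain ⟨l, hl⟩ := (hG e he).2
      exact ⟨l, fun _ => hl⟩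
    · exact ⟨0, fun h => absurd h he⟩
  choose l hl using hG'
  have e1 : ∀ᶠ ε in 𝓝[≠] (0 : ℝ), ∀ v z w,
      0 < dot (μ v) (P z - P w) → 0 < dot (μ v) (Q P t ε z - Q P t ε w) := by
    exact eventually_all.2 fun v => eventually_all.2 fun z => eventually_all.2 fun w =>
      ev_pos P t _ z w
  have e2 : ∀ᶠ ε in 𝓝[≠] (0 : ℝ), ∀ e z w,
      0 < dot (l e) (P z - P w) → 0 < dot (l e) (Q P t ε z - Q P t ε w) := by
    exact eventually_all.2 fun v => eventually_all.2 fun z => eventually_all.2 fun w =>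
      ev_pos P t _ z w
  have e3 : ∀ᶠ ε in 𝓝[≠] (0 : ℝ), ∀ a b c d, a ≠ b → a ≠ c → a ≠ d → b ≠ c → b ≠ d → c ≠ d →
      D (Q P t ε) a b c d ≠ 0 := by
    refine eventually_all.2 fun a => eventually_all.2 fun b => eventually_all.2 fun c =>
      eventually_all.2 fun d => ev_D P t ht a b c d
  have e4 : ∀ᶠ ε in 𝓝[≠] (0 : ℝ), ∀ a b, Q P t ε a 0 = Q P t ε b 0 → a = b := by
    refine eventually_all.2 fun a => eventually_all.2 fun b => ev_inj P t ht a b
  obtain ⟨ε, h1, h2, h3, h4⟩ := (e1.and (e2.and (e3.and e4))).exists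
  refine main_gp (Q P t ε) k h3 (fun v => ⟨μ v, fun z hz => h1 v z v (hμ v z hz)⟩) h4 hn G ?_
  intro e he
  obtain ⟨N, hN, hz⟩ := hl e he
  exact ⟨(hG e he).1, l e, N, hN, fun z a b c =>
    ⟨h2 e _ _ (hz z a b c).1, h2 e _ _ (hz z a b c).2⟩⟩

end Pool.Agent.SIG
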