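import Pool.Agent.Lib.MP_402e48_co.Edge

/-!
Tangent discs, in coordinates adapted to the tangent point.
-/

namespace Pool.Agent.SIG

open Finset Filter Topology

variable {ι : Type*} [Fintype ι] [DecidableEq ι]

open Classical in
/-- two rim points on the side `σ` -/
theorem side_two (α β r : ι → ℝ) (hr : ∀ x, 0 < r x)
    (hsep : ∀ x z, z ≠ x → r x ^ 2 ≤ (α z - α x) ^ 2 + (β z - β x) ^ 2) (x y : ι)
    (x0 : α x = r x) (x1 : β x = 0) (y0 : α y = -r y) (y1 : β y = 0) (σ : ℝ) :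
    #{a | α a ^ 2 + β a ^ 2 - r a ^ 2 ≤ 0 ∧ 0 < σ * β a} ≤ 2 ∧
    (2 ≤ #{a | α a ^ 2 + β a ^ 2 - r a ^ 2 ≤ 0 ∧ 0 < σ * β a} →
      #{a | α a ^ 2 + β a ^ 2 - r a ^ 2 < 0 ∧ 0 < σ * β a} = 0 ∧ r y = r x ∧
      ∃ a b, 0 < σ * β a ∧ β b = β a ∧ 4 * β a ^ 2 = 3 * r x ^ 2 ∧ 2 * α a = r x ∧
        2 * α b = -r x ∧ r a ^ 2 = r x ^ 2 ∧ r b ^ 2 = r x ^ 2) := by
  have hx := hr x
  have same : ∀ a b, 0 < σ * β a → 0 < σ * β b → 0 < β a * β b := by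
    intro a b ha hb
    have h1 := mul_pos ha hb
    have h2 : σ * β a * (σ * β b) = σ ^ 2 * (β a * β b) := by ring
    rw [h2] at h1
    by_contra h
    exact absurd h1 (not_lt.2 (mul_nonpos_of_nonneg_of_nonpos (sq_nonneg _) (not_lt.1 h)))
  have sc := side_core α β r hr hsep x y x0 x1 y0 y1
  constructor
  · by_contra h
    obtain ⟨a, b, c, ha, hb, hc, hab, hac, hbc⟩ := two_lt_card_iff.1 (not_le.1 h)
    simp only [mem_filter, mem_univ, true_and] at ha hb hc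
    have h1 := sc a b hab ha.1 hb.1 (same a b ha.2 hb.2)
    have h2 := sc a c hac ha.1 hc.1 (same a c ha.2 hc.2)
    have h3 := sc b c hbc hb.1 hc.1 (same b c hb.2 hc.2)
    have h4 : α a = 0 := by linarith [h1.2.2.2.2.1, h2.2.2.2.2.1, h3.2.2.2.2.1]
    have h5 := h1.2.2.2.2.2.1
    rw [h4] at h5
    nlinarith
  · intro h
    obtain ⟨a, ha, b, hb, hab⟩ := one_lt_card.1 h
    simp only [mem_filter, mem_univ, true_and] at ha hb
    obtain ⟨p1, p2, p3, p4, p5, p6, p7⟩ := sc a b hab ha.1 hb.1 (same a b ha.2 hb.2)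
    refine ⟨?_, p3, ?_⟩
    · rw [card_eq_zero, filter_eq_empty_iff]
      rintro c - ⟨hc1, hc2⟩
      by_cases hca : c = a
      · rw [hca] at hc1; linarith
      · have := (sc c a hca hc1.le ha.1 (same c a hc2 ha.2)).1
        linarith
    · have ra : r a ^ 2 = r x ^ 2 := by nlinarith
      have rb : r b ^ 2 = r x ^ 2 := by rw [p5, p4] at p1; rw [← ra]; nlinarith
      rcases sq_eq_sq_iff_eq_or_eq_neg.1 p6 with h | h
      · exact ⟨a, b, ha.2, p4.symm, p7, h, by linarith, ra, rb⟩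
      · exact ⟨b, a, hb.2, p4, by rw [← p4]; exact p7, by linarith, h, rb, ra⟩

open Classical in
theorem tan_core (α β r : ι → ℝ) (hr : ∀ x, 0 < r x)
    (hsep : ∀ x z, z ≠ x → r x ^ 2 ≤ (α z - α x) ^ 2 + (β z - β x) ^ 2) (x y : ι)
    (x0 : α x = r x) (x1 : β x = 0) (y0 : α y = -r y) (y1 : β y = 0) :
    (∃ σ : ℝ, ∃ N : Finset ι, #N ≤ 2 ∧ ∀ z, z ≠ x → z ≠ y → z ∉ N →
      0 < α z ^ 2 + β z ^ 2 - r z ^ 2 ∨ (α z ^ 2 + β z ^ 2 - r z ^ 2 = 0 ∧ σ * β z < 0)) ∨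
    (r y = r x ∧ (∃ z, α z = 0 ∧ β z = 0) ∧ ∀ σ : ℝ, σ = 1 ∨ σ = -1 →
      ∃ a b, 0 < σ * β a ∧ β b = β a ∧ 4 * β a ^ 2 = 3 * r x ^ 2 ∧ 2 * α a = r x ∧
        2 * α b = -r x ∧ r a ^ 2 = r x ^ 2 ∧ r b ^ 2 = r x ^ 2) := by
  have hx := hr x
  have hy := hr y
  let Z : Finset ι := {a | α a = 0 ∧ β a = 0}
  let A : ℝ → Finset ι := fun σ => {a | α a ^ 2 + β a ^ 2 - r a ^ 2 ≤ 0 ∧ 0 < σ * β a}
  let B : ℝ → Finset ι := fun σ => {a | α a ^ 2 + β a ^ 2 - r a ^ 2 < 0 ∧ 0 < σ * β a}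
  have hZ : #Z ≤ 1 := card_le_one.2 fun a ha b hb => by
    simp only [Z, mem_filter, mem_univ, true_and] at ha hb
    by_contra h
    have h1 := hsep b a h
    rw [ha.1, ha.2, hb.1, hb.2] at h1
    nlinarith [hr b]
  have hBA : ∀ σ, #(B σ) ≤ #(A σ) := fun σ => card_le_card fun a ha => by
    simp only [A, B, mem_filter, mem_univ, true_and] at ha ⊢
    exact ⟨ha.1.le, ha.2⟩
  have hZB : 1 ≤ #Z → ∀ σ, #(B σ) = 0 := by
    intro h σ
    obtain ⟨z, hz⟩ := card_pos.1 h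
    simp only [Z, mem_filter, mem_univ, true_and] at hz
    rw [card_eq_zero, filter_eq_empty_iff]
    rintro c - ⟨hc1, hc2⟩
    have hcz : z ≠ c := by rintro rfl; rw [hz.2] at hc2; simp at hc2
    have h1 := hsep c z hcz
    rw [hz.1, hz.2] at h1
    nlinarith
  have axis : ∀ z, z ≠ x → z ≠ y → α z ^ 2 + β z ^ 2 - r z ^ 2 ≤ 0 → β z = 0 → z ∈ Z := by
    intro a n1 n2 ha h0
    have i1 := hsep x a n1
    have i2 := hsep a x n1.symm
    have i3 := hsep y a n2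
    have i4 := hsep a y n2.symm
    rw [x0, x1] at i1 i2
    rw [y0, y1] at i3 i4
    have := ang60 (r x) (r y) (α a) (β a) (by nlinarith) (by
      by_contra hc
      nlinarith [mul_pos (sub_pos.2 (not_le.1 hc)) hx]) (by nlinarith) (by
      by_contra hc
      nlinarith [mul_pos (sub_pos.2 (not_le.1 hc)) hy])
    simp only [Z, mem_filter, mem_univ, true_and]
    rw [h0] at this
    exact ⟨pow_eq_zero_iff (two_ne_zero) |>.1 (le_antisymm (by linarith) (sq_nonneg _)), h0⟩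
  have cover : ∀ σ : ℝ, σ ≠ 0 → ∀ z, z ≠ x → z ≠ y → z ∉ Z ∪ A σ ∪ B (-σ) →
      0 < α z ^ 2 + β z ^ 2 - r z ^ 2 ∨ (α z ^ 2 + β z ^ 2 - r z ^ 2 = 0 ∧ σ * β z < 0) := by
    intro σ hσ z n1 n2 hz
    simp only [mem_union, not_or] at hz
    obtain ⟨⟨h1, h2⟩, h3⟩ := hz
    simp only [A, B, mem_filter, mem_univ, true_and, not_and, not_lt] at h2 h3
    rcases lt_or_ge 0 (α z ^ 2 + β z ^ 2 - r z ^ 2) with h | h
    · exact Or.inl h
    · right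
      have hb : β z ≠ 0 := fun h0 => h1 (axis z n1 n2 h h0)
      have h4 : σ * β z < 0 := lt_of_le_of_ne (h2 h) (mul_ne_zero hσ hb)
      refine ⟨le_antisymm h ?_, h4⟩
      by_contra h5
      have := h3 (not_le.1 h5)
      linarith
  have s1 := side_two α β r hr hsep x y x0 x1 y0 y1 1
  have s2 := side_two α β r hr hsep x y x0 x1 y0 y1 (-1)
  by_cases c1 : #(Z ∪ A 1 ∪ B (-1)) ≤ 2
  · exact Or.inl ⟨1, _, c1, cover 1 one_ne_zero⟩
  by_cases c2 : #(Z ∪ A (-1) ∪ B (- -1)) ≤ 2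
  · exact Or.inl ⟨-1, _, c2, cover (-1) (by norm_num)⟩
  right
  rw [neg_neg] at c2
  have d1 : #(Z ∪ A 1 ∪ B (-1)) ≤ #Z + #(A 1) + #(B (-1)) :=
    (card_union_le _ _).trans (add_le_add (card_union_le _ _) le_rfl)
  have d2 : #(Z ∪ A (-1) ∪ B 1) ≤ #Z + #(A (-1)) + #(B 1) :=
    (card_union_le _ _).trans (add_le_add (card_union_le _ _) le_rfl)
  have f1 : #(A 1) ≤ 2 := s1.1
  have f2 : #(A (-1)) ≤ 2 := s2.1
  have g1 : 2 ≤ #(A 1) → #(B 1) = 0 := fun h => (s1.2 h).1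
  have g2 : 2 ≤ #(A (-1)) → #(B (-1)) = 0 := fun h => (s2.2 h).1
  have k1 := fun h => hZB h 1
  have k2 := fun h => hZB h (-1)
  have l1 := hBA 1
  have l2 := hBA (-1)
  have m0 : 1 ≤ #Z := by omega
  have m1 : 2 ≤ #(A 1) := by omega
  have m2 : 2 ≤ #(A (-1)) := by omega
  refine ⟨(s1.2 m1).2.1, ?_, ?_⟩
  · obtain ⟨z, hz⟩ := card_pos.1 m0
    simp only [Z, mem_filter, mem_univ, true_and] at hz
    exact ⟨z, hz⟩
  · rintro σ (rfl | rfl)
    · exact (s1.2 m1).2.2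
    · exact (s2.2 m2).2.2

end Pool.Agent.SIG
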