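import Pool.Agent.Lib.MP_402e48_co.Tangent

/-!
Full regular wheels.
-/

namespace Pool.Agent.SIG

open Finset Filter Topology Complex ComplexConjugate

/-- primitive sixth root of unity -/
noncomputable def om : ℂ := ⟨1 / 2, √3 / 2⟩

theorem s3 : √3 * √3 = (3 : ℝ) := Real.mul_self_sqrt (by norm_num)

theorem s3pos : (0 : ℝ) < √3 := Real.sqrt_pos.2 (by norm_num)

theorem om_sq : om ^ 2 = om - 1 := by
  apply Complex.ext
  · simp only [om, pow_two, mul_re, sub_re, one_re]; linarith [s3]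
  · simp only [om, pow_two, mul_im, sub_im, one_im]; ring

theorem om3 : om ^ 3 = -1 := by linear_combination (om + 1) * om_sq

theorem om4 : om ^ 4 = -om := by linear_combination om * om3

theorem om5 : om ^ 5 = 1 - om := by linear_combination om * om4 - om_sq

theorem om6 : om ^ 6 = 1 := by linear_combination (om ^ 3 - 1) * om3

theorem om_re : om.re = 1 / 2 := rfl

theorem om_im : om.im = √3 / 2 := rfl

theorem normSq_om : normSq om = 1 := by
  rw [normSq_apply, om_re, om_im]; linarith [s3]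

theorem normSq_ompow (j : ℕ) (u : ℂ) : normSq (om ^ j * u) = normSq u := by
  rw [map_mul, map_pow, normSq_om, one_pow, one_mul]

theorem ompow6 (j : ℕ) (u : ℂ) : (om ^ j * u) ^ 6 = u ^ 6 := by
  rw [mul_pow, ← pow_mul, mul_comm j, pow_mul, om6, one_pow, one_mul]

theorem root6 (u v : ℂ) (h : u ^ 6 = v ^ 6) : ∃ j : ℕ, u = om ^ j * v := by
  have : (u - om ^ 0 * v) * (u - om ^ 1 * v) * (u - om ^ 2 * v) * (u - om ^ 3 * v) *
      (u - om ^ 4 * v) * (u - om ^ 5 * v) = 0 := by
    rw [om_sq, om3, om4, om5]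
    linear_combination h + (u ^ 2 - v ^ 2) * (v ^ 4 * (om ^ 2 - om - 1) - 2 * u ^ 2 * v ^ 2) * om_sq
  simp only [mul_eq_zero, sub_eq_zero] at this
  rcases this with ((((h | h) | h) | h) | h) | h <;> exact ⟨_, h⟩

variable {ι : Type*} [Fintype ι] [DecidableEq ι]

/-- `z` is the centre of a full wheel with spoke `u` -/
def Wheel (p : ι → ℂ) (r : ι → ℝ) (z : ι) (u : ℂ) : Prop :=
  u ≠ 0 ∧ ∀ j : ℕ, ∃ b, p b = p z + om ^ j * u ∧ r b ^ 2 = normSq u

omit [Fintype ι] [DecidableEq ι] in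
theorem Wheel.rot {p : ι → ℂ} {r : ι → ℝ} {z : ι} {u : ℂ} (h : Wheel p r z u) (i : ℕ) :
    Wheel p r z (om ^ i * u) := by
  refine ⟨fun h0 => h.1 ?_, fun j => ?_⟩
  · rw [← normSq_eq_zero, ← normSq_ompow i u, h0, map_zero]
  · obtain ⟨b, h1, h2⟩ := h.2 (j + i)
    exact ⟨b, by rw [h1]; ring, by rw [h2, normSq_ompow]⟩

/-- power lifting of complex points -/
def LL (p : ι → ℂ) (r : ι → ℝ) : ι → V := L (fun a => (p a).re) (fun a => (p a).im) r

theorem nsq (a b : ℂ) : normSq (a - b) = (a.re - b.re) ^ 2 + (a.im - b.im) ^ 2 := by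
  rw [normSq_apply, sub_re, sub_im]; ring

theorem tangent (p : ι → ℂ) (r : ι → ℝ) (hr : ∀ x, 0 < r x)
    (hsep : ∀ x z, z ≠ x → r x ^ 2 ≤ normSq (p z - p x)) (x y : ι) (hxy : x ≠ y)
    (hd : normSq (p y - p x) = (r x + r y) ^ 2) :
    Good (LL p r) 2 x y ∨ ∃ z, Wheel p r z (p x - p z) ∧ p y - p z = -(p x - p z) := by
  have hx := hr x
  have hy := hr y
  have hs : 0 < r x + r y := by linarith
  have hs' : ((r x + r y : ℝ) : ℂ) ≠ 0 := by exact_mod_cast hs.ne'
  obtain ⟨w, hw⟩ : ∃ w : ℂ, p x - p y = ((r x + r y : ℝ) : ℂ) * w :=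
    ⟨(p x - p y) / ((r x + r y : ℝ) : ℂ), by field_simp⟩
  have hw1 : normSq w = 1 := by
    rw [← normSq_neg, neg_sub, hw, map_mul, normSq_ofReal] at hd
    have : (r x + r y) ^ 2 * normSq w = (r x + r y) ^ 2 * 1 := by linarith
    exact mul_left_cancel₀ (by positivity) this
  have hw2 : w * conj w = 1 := by rw [mul_conj, hw1, ofReal_one]
  set q : ℂ := p x - r x * w with hq
  let t : ι → ℂ := fun a => (p a - q) * conj w
  have hp : ∀ a, p a = q + t a * w := fun a => by
    simp only [t]; linear_combination (-(p a - q)) * hw2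
  have tx : t x = r x := by
    simp only [t, hq]; linear_combination (r x : ℂ) * hw2
  have ty : t y = -r y := by
    simp only [t, hq]
    push_cast at hw
    linear_combination (-conj w) * hw - (r y : ℂ) * hw2
  have hn : ∀ (a : ι) (c : ℂ), normSq (p a - (q + c * w)) = normSq (t a - c) := fun a c => by
    have : p a - (q + c * w) = (t a - c) * w := by rw [hp a]; ring
    rw [this, map_mul, hw1, mul_one]
  rcases tan_core (fun a => (t a).re) (fun a => (t a).im) r hr
    (fun a b h => by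
      have := hsep a b h
      rw [hp a, hn, nsq] at this
      exact this) x y (by simp [tx]) (by simp [tx]) (by simp [ty]) (by simp [ty]) with
    ⟨σ, N, hN, h⟩ | ⟨h1, ⟨z, z0, z1⟩, h2⟩
  · left
    have ev : ∀ z, ∀ᶠ τ in 𝓝[>] (0 : ℝ), z ≠ x → z ≠ y → z ∉ N →
        0 < (t z).re ^ 2 + (t z).im ^ 2 - r z ^ 2 - 2 * τ * (σ * (t z).im) := by
      intro z
      by_cases hz : z ≠ x ∧ z ≠ y ∧ z ∉ N
      · rcases h z hz.1 hz.2.1 hz.2.2 with h | h
        · have hc : Continuous fun τ : ℝ =>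
              (t z).re ^ 2 + (t z).im ^ 2 - r z ^ 2 - 2 * τ * (σ * (t z).im) := by fun_prop
          have h' : 0 < (t z).re ^ 2 + (t z).im ^ 2 - r z ^ 2 - 2 * 0 * (σ * (t z).im) := by
            linarith
          have := (hc.tendsto 0).eventually (lt_mem_nhds h')
          exact (this.filter_mono nhdsWithin_le_nhds).mono fun τ hτ _ _ _ => hτ
        · filter_upwards [self_mem_nhdsWithin] with τ hτ _ _ _
          have := mul_neg_of_pos_of_neg (show 0 < τ from hτ) h.2
          linarith [h.1]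
      · exact Eventually.of_forall fun τ a b c => absurd ⟨a, b, c⟩ hz
    obtain ⟨τ, hτ⟩ := (eventually_all.2 ev).exists
    set q' : ℂ := q + (⟨0, τ * σ⟩ : ℂ) * w with hq'
    have hn' : ∀ a, ((p a).re - q'.re) ^ 2 + ((p a).im - q'.im) ^ 2 =
        (t a).re ^ 2 + ((t a).im - τ * σ) ^ 2 := fun a => by
      rw [← nsq, hq', hn, nsq]; simp
    refine ⟨hxy, ![-2 * q'.re, -2 * q'.im, 1], N, hN, fun z a b c => ?_⟩
    have := hτ z a b c
    simp only [LL]
    rw [hdotL, hdotL, hn', hn', hn', tx, ty]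
    simp only [ofReal_re, ofReal_im, neg_re, neg_im]
    constructor <;> nlinarith
  · right
    have tz : t z = 0 := Complex.ext z0 z1
    have pz : p z = q := by rw [hp z, tz]; ring
    have hu : p x - p z = r x * w := by rw [pz, hq]; ring
    have hβ : ∀ b : ℝ, 0 < b → 4 * b ^ 2 = 3 * r x ^ 2 → b = √3 / 2 * r x := by
      intro b hb h
      have h3 : b ^ 2 = (√3 / 2 * r x) ^ 2 := by
        linear_combination (1 / 4) * h - (r x ^ 2 / 4) * s3
      exact (pow_left_inj₀ hb.le (by have := s3pos; positivity) two_ne_zero).1 h3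
    obtain ⟨a, b, a1, a2, a3, a4, a5, a6, a7⟩ := h2 1 (Or.inl rfl)
    obtain ⟨c, d, c1, c2, c3, c4, c5, c6, c7⟩ := h2 (-1) (Or.inr rfl)
    have ea := hβ (t a).im (by linarith) a3
    have ec := hβ (-(t c).im) (by linarith) (by linarith)
    have six : ∀ j < 6, ∃ b, t b = om ^ j * r x ∧ r b ^ 2 = r x ^ 2 := by
      intro j hj
      interval_cases j
      · exact ⟨x, by simp [tx], rfl⟩
      · refine ⟨a, Complex.ext ?_ ?_, a6⟩ <;> simp [om_re, om_im] <;> linarith
      · refine ⟨b, Complex.ext ?_ ?_, a7⟩ <;> simp [om_sq, om_re, om_im] <;> linarith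
      · exact ⟨y, by simp [ty, om3, h1], by rw [h1]⟩
      · refine ⟨d, Complex.ext ?_ ?_, c7⟩ <;> simp [om4, om_re, om_im] <;> linarith
      · refine ⟨c, Complex.ext ?_ ?_, c6⟩ <;> simp [om5, om_re, om_im] <;> linarith
    have hnu : normSq ((r x : ℂ) * w) = r x ^ 2 := by
      rw [map_mul, hw1, normSq_ofReal]; ring
    refine ⟨z, ⟨?_, fun j => ?_⟩, ?_⟩
    · rw [hu, Ne, ← normSq_eq_zero, hnu]; positivity
    · obtain ⟨b, e1, e2⟩ := six (j % 6) (Nat.mod_lt _ (by norm_num))
      refine ⟨b, ?_, by rw [hu, hnu, e2]⟩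
      rw [hu, pz, hp b, e1, pow_eq_pow_mod j om6]; ring
    · rw [hu, hp y, pz, ty, h1]; ring

theorem hex_core (A C M : ℝ) (hM : 0 < M) (h : 3 * M ^ 2 ≤ 3 * A ^ 2 + C ^ 2) (h0 : 2 * A ≤ M)
    (h3 : -2 * A ≤ M) (h1 : A + C ≤ M) (h2 : -A + C ≤ M) (h4 : -A - C ≤ M) (h5 : A - C ≤ M) :
    False := by
  rcases le_total 0 A with a | a <;> rcases le_total 0 C with c | c <;> nlinarith

omit [Fintype ι] [DecidableEq ι] in
theorem rim_all (p : ι → ℂ) (r : ι → ℝ) (hr : ∀ x, 0 < r x)
    (hsep : ∀ x z, z ≠ x → r x ^ 2 ≤ normSq (p z - p x)) {z : ι} {u : ℂ} (hW : Wheel p r z u)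
    (w : ι) (hwz : w ≠ z) (hw : normSq (p w - p z) ≤ r w ^ 2) :
    ∃ j < 6, p w = p z + om ^ j * u := by
  by_contra hc
  push Not at hc
  set v := p w - p z with hv
  have hv0 : 0 < normSq v := by
    have := hsep w z hwz.symm
    rw [← normSq_neg, neg_sub] at this
    nlinarith [hr w]
  have hu0 : 0 < normSq u := normSq_pos.2 hW.1
  have key : ∀ j < 6, 2 * (v * conj u * conj (om ^ j)).re ≤ min (normSq u) (normSq v) := by
    intro j hj
    obtain ⟨b, b1, b2⟩ := hW.2 j
    have hb : w ≠ b := by rintro rfl; exact hc j hj b1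
    have i1 := hsep b w hb
    have i2 := hsep w b hb.symm
    rw [← normSq_neg, neg_sub] at i2
    have e : p w - p b = v - om ^ j * u := by rw [b1, hv]; ring
    have e2 : v * conj (om ^ j * u) = v * conj u * conj (om ^ j) := by rw [map_mul]; ring
    rw [e, normSq_sub, normSq_ompow, e2] at i1 i2
    exact le_min (by linarith) (by linarith)
  set M := min (normSq u) (normSq v) with hM
  set c := v * conj u with hc'
  have hM0 : 0 < M := lt_min hu0 hv0
  have hM2 : M ^ 2 ≤ c.re ^ 2 + c.im ^ 2 := by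
    have : normSq c = normSq v * normSq u := by rw [hc', map_mul, normSq_conj]
    rw [normSq_apply] at this
    have h1 : M ≤ normSq u := min_le_left _ _
    have h2 : M ≤ normSq v := min_le_right _ _
    nlinarith [mul_le_mul h2 h1 hM0.le hv0.le]
  have k0 := key 0 (by norm_num)
  have k1 := key 1 (by norm_num)
  have k2 := key 2 (by norm_num)
  have k3 := key 3 (by norm_num)
  have k4 := key 4 (by norm_num)
  have k5 := key 5 (by norm_num)
  simp [om_sq, om3, om4, om5, om_re, om_im] at k0 k1 k2 k3 k4 k5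
  refine hex_core c.re (√3 * c.im) M hM0 ?_ ?_ ?_ ?_ ?_ ?_ ?_
  · have : (√3 * c.im) ^ 2 = 3 * c.im ^ 2 := by linear_combination c.im ^ 2 * s3
    linarith
  all_goals linarith

omit [Fintype ι] [DecidableEq ι] in
theorem p_inj (p : ι → ℂ) (r : ι → ℝ) (hr : ∀ x, 0 < r x)
    (hsep : ∀ x z, z ≠ x → r x ^ 2 ≤ normSq (p z - p x)) : Function.Injective p := by
  intro a b h
  by_contra hab
  have := hsep b a hab
  rw [h, sub_self, map_zero] at this
  nlinarith [hr b]

omit [Fintype ι] [DecidableEq ι] in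
theorem consistent (p : ι → ℂ) (r : ι → ℝ) (hr : ∀ x, 0 < r x)
    (hsep : ∀ x z, z ≠ x → r x ^ 2 ≤ normSq (p z - p x)) {a z z' : ι}
    (hW : Wheel p r z (p a - p z)) (hW' : Wheel p r z' (p a - p z')) :
    (p a - p z) ^ 6 = (p a - p z') ^ 6 := by
  have inj := p_inj p r hr hsep
  by_contra hne
  set v := p a - p z with hv
  set v' := p a - p z' with hv'
  have n1 : r a ^ 2 = normSq v := by
    obtain ⟨b, b1, b2⟩ := hW.2 0
    rw [← b2, inj (show p b = p a by rw [b1, hv]; ring)]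
  have n2 : r a ^ 2 = normSq v' := by
    obtain ⟨b, b1, b2⟩ := hW'.2 0
    rw [← b2, inj (show p b = p a by rw [b1, hv']; ring)]
  have key : ∀ (i k : ℕ) (b c : ι), p b = p a + om ^ i * v → p c = p a + om ^ k * v' →
      r b ^ 2 = normSq v → 2 * (v' * conj v * (om ^ k * conj (om ^ i))).re ≤ r a ^ 2 := by
    intro i k b c hb hc hrb
    have hcb : c ≠ b := by
      rintro rfl
      apply hne
      rw [← ompow6 i v, ← ompow6 k v', show om ^ i * v = om ^ k * v' by linear_combination hc - hb]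
    have i1 := hsep b c hcb
    have e : p c - p b = om ^ k * v' - om ^ i * v := by rw [hb, hc]; ring
    have e2 : om ^ k * v' * conj (om ^ i * v) = v' * conj v * (om ^ k * conj (om ^ i)) := by
      rw [map_mul]; ring
    rw [e, normSq_sub, normSq_ompow, normSq_ompow, e2] at i1
    linarith
  obtain ⟨b1, e1, f1⟩ := hW.2 1
  obtain ⟨b5, e5, f5⟩ := hW.2 5
  obtain ⟨c1, g1, -⟩ := hW'.2 1
  obtain ⟨c5, g5, -⟩ := hW'.2 5
  have e1' : p b1 = p a + om ^ 2 * v := by rw [e1, om_sq]; linear_combination -hv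
  have e5' : p b5 = p a + om ^ 4 * v := by rw [e5, om5, om4]; linear_combination -hv
  have g1' : p c1 = p a + om ^ 2 * v' := by rw [g1, om_sq]; linear_combination -hv'
  have g5' : p c5 = p a + om ^ 4 * v' := by rw [g5, om5, om4]; linear_combination -hv'
  have g0 : p z' = p a + om ^ 3 * v' := by rw [om3]; linear_combination -hv'
  have k1 := key 2 3 _ _ e1' g0 f1
  have k2 := key 4 3 _ _ e5' g0 f5
  have k3 := key 2 4 _ _ e1' g5' f1
  have k4 := key 4 2 _ _ e5' g1' f5
  set c := v' * conj v with hc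
  have hc2 : c.re ^ 2 + c.im ^ 2 = (r a ^ 2) ^ 2 := by
    have : normSq c = normSq v' * normSq v := by rw [hc, map_mul, normSq_conj]
    rw [normSq_apply, ← n1, ← n2] at this
    linarith
  simp [om_sq, om3, om4, om_re, om_im] at k1 k2 k3 k4
  set S := r a ^ 2 with hS
  have hS0 : 0 < S := pow_pos (hr a) 2
  have l1 : c.re - √3 * c.im ≤ S := by linarith
  have l2 : c.re + √3 * c.im ≤ S := by linarith
  have l3 : -c.re - √3 * c.im ≤ S := by linear_combination k3 + (c.re / 2) * s3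
  have l4 : -c.re + √3 * c.im ≤ S := by linear_combination k4 + (c.re / 2) * s3
  have hC : (√3 * c.im) ^ 2 = 3 * c.im ^ 2 := by linear_combination c.im ^ 2 * s3
  have hB : c.im = 0 := by
    set C := √3 * c.im
    have : c.im ^ 2 ≤ 0 := by
      rcases le_total 0 c.re with h | h <;> rcases le_total 0 C with h' | h' <;> nlinarith
    exact pow_eq_zero_iff (two_ne_zero) |>.1 (le_antisymm this (sq_nonneg _))
  have hc3 : c = c.re := Complex.ext rfl (by simp [hB])
  have hA : (c.re : ℂ) ^ 2 = (S : ℂ) ^ 2 := by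
    rw [hB] at hc2
    exact_mod_cast (by linarith : c.re ^ 2 = S ^ 2)
  have hvv : v * conj v = S := by rw [mul_conj, ← n1]
  have h6 : v' * S = c.re * v := by rw [← hc3, hc, ← hvv]; ring
  have hS' : (S : ℂ) ^ 6 ≠ 0 := pow_ne_zero _ (by exact_mod_cast hS0.ne')
  apply hne
  apply mul_right_cancel₀ hS'
  rw [← mul_pow v', h6]
  linear_combination (-v ^ 6 * ((c.re : ℂ) ^ 4 + (c.re : ℂ) ^ 2 * S ^ 2 + S ^ 4)) * hA

end Pool.Agent.SIG
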